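import Pool.Agent.H74.OD.Stm

/-!
# Stub OD-BDB: double sine coefficients of a square integrable function are bounded
-/

set_option autoImplicit false

namespace Pool.Agent.H74.OD.T.BDB

open MeasureTheory Filter Topology Set
open scoped ENNReal

theorem main : S_BDB := by
  intro Y B v hY hB hv
  have hfin : volume (Rec Y B) < ⊤ := by
    have h : volume (Rec Y B) = volume (Ioo (0:ℝ) Y) * volume (Ioo (0:ℝ) B) := by
      unfold Rec
      exact Measure.prod_prod _ _
    rw [h, Real.volume_Ioo, Real.volume_Ioo]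
    exact ENNReal.mul_lt_top ENNReal.ofReal_lt_top ENNReal.ofReal_lt_top
  haveI : IsFiniteMeasure (volume.restrict (Rec Y B)) := ⟨by
    rw [Measure.restrict_apply_univ]; exact hfin⟩
  have hint : Integrable v (volume.restrict (Rec Y B)) := hv.integrable (by norm_num)
  have hnn : 0 ≤ ∫ q in Rec Y B, ‖v q‖ := integral_nonneg fun q => norm_nonneg _
  have hc : 0 < 4 / (Y * B) := by positivity
  refine ⟨4 / (Y * B) * (∫ q in Rec Y B, ‖v q‖) + 1, by positivity, fun k n => ?_⟩
  have h1 : |∫ q in Rec Y B, v q * (Real.sin (kap Y k * q.1) * Real.sin (kap B n * q.2))| ≤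
      ∫ q in Rec Y B, ‖v q‖ := by
    rw [← Real.norm_eq_abs]
    refine norm_integral_le_of_norm_le hint.norm (ae_of_all _ fun q => ?_)
    rw [norm_mul]
    have h2 : ‖Real.sin (kap Y k * q.1) * Real.sin (kap B n * q.2)‖ ≤ 1 := by
      rw [norm_mul, Real.norm_eq_abs, Real.norm_eq_abs]
      exact mul_le_one₀ (Real.abs_sin_le_one _) (abs_nonneg _) (Real.abs_sin_le_one _)
    exact mul_le_of_le_one_right (norm_nonneg _) h2
  unfold bc
  rw [abs_mul, abs_of_pos hc]
  have := mul_le_mul_of_nonneg_left h1 hc.le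
  linarith

end Pool.Agent.H74.OD.T.BDB
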