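import Pool.Agent.H74.OD.Stm

/-! Project OD, stub DIS (helper19): finite dissipation. -/

set_option autoImplicit false

namespace Pool.Agent.H74.OD.T.DIS

open MeasureTheory Filter Topology Set
open scoped ENNReal

/-! ### one dimensional orthogonality -/

theorem int_cos (Y : ℝ) (hY : 0 < Y) (m : ℤ) :
    ∫ x in Ioo 0 Y, Real.cos (m * Real.pi / Y * x) = if m = 0 then Y else 0 := by
  rw [← integral_Ioc_eq_integral_Ioo, ← intervalIntegral.integral_of_le hY.le]
  split_ifs with h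
  · subst h
    simp
  · have hc : (m * Real.pi / Y : ℝ) ≠ 0 := by
      have : (m : ℝ) ≠ 0 := by exact_mod_cast h
      have := Real.pi_ne_zero
      positivity
    rw [intervalIntegral.integral_comp_mul_left (fun x => Real.cos x) hc, integral_cos]
    have e : (m * Real.pi / Y : ℝ) * Y = m * Real.pi := by field_simp
    rw [e, Real.sin_int_mul_pi]
    simp

theorem cont_int {f : ℝ → ℝ} (hf : Continuous f) (a b : ℝ) : IntegrableOn f (Ioo a b) :=
  (hf.continuousOn.integrableOn_Icc (a := a) (b := b)).mono_set Ioo_subset_Icc_self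

theorem int_cc (Y : ℝ) (hY : 0 < Y) (k l : ℕ) :
    ∫ x in Ioo 0 Y, Real.cos (kap Y k * x) * Real.cos (kap Y l * x) = if k = l then Y / 2 else 0 := by
  have e : ∀ x : ℝ, Real.cos (kap Y k * x) * Real.cos (kap Y l * x) =
      1 / 2 * Real.cos ((((k : ℤ) - l : ℤ) : ℝ) * Real.pi / Y * x) +
      1 / 2 * Real.cos ((((k : ℤ) + l + 2 : ℤ) : ℝ) * Real.pi / Y * x) := by
    intro x
    have e1 : ((((k : ℤ) - l : ℤ) : ℝ) * Real.pi / Y * x) = kap Y k * x - kap Y l * x := by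
      unfold kap; push_cast; ring
    have e2 : ((((k : ℤ) + l + 2 : ℤ) : ℝ) * Real.pi / Y * x) = kap Y k * x + kap Y l * x := by
      unfold kap; push_cast; ring
    rw [e1, e2, Real.cos_sub, Real.cos_add]
    ring
  simp only [e]
  rw [integral_add ((cont_int (by fun_prop) 0 Y).const_mul _) ((cont_int (by fun_prop) 0 Y).const_mul _),
    integral_const_mul, integral_const_mul, int_cos Y hY, int_cos Y hY]
  rw [if_neg (show ¬ ((k : ℤ) + l + 2 = 0) by omega)]
  by_cases h : k = l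
  · subst h
    simp
    ring
  · rw [if_neg (show ¬ ((k : ℤ) - l = 0) by omega), if_neg h]
    simp

theorem int_ss (Y : ℝ) (hY : 0 < Y) (k l : ℕ) :
    ∫ x in Ioo 0 Y, Real.sin (kap Y k * x) * Real.sin (kap Y l * x) = if k = l then Y / 2 else 0 := by
  have e : ∀ x : ℝ, Real.sin (kap Y k * x) * Real.sin (kap Y l * x) =
      1 / 2 * Real.cos ((((k : ℤ) - l : ℤ) : ℝ) * Real.pi / Y * x) -
      1 / 2 * Real.cos ((((k : ℤ) + l + 2 : ℤ) : ℝ) * Real.pi / Y * x) := by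
    intro x
    have e1 : ((((k : ℤ) - l : ℤ) : ℝ) * Real.pi / Y * x) = kap Y k * x - kap Y l * x := by
      unfold kap; push_cast; ring
    have e2 : ((((k : ℤ) + l + 2 : ℤ) : ℝ) * Real.pi / Y * x) = kap Y k * x + kap Y l * x := by
      unfold kap; push_cast; ring
    rw [e1, e2, Real.cos_sub, Real.cos_add]
    ring
  simp only [e]
  rw [integral_sub ((cont_int (by fun_prop) 0 Y).const_mul _) ((cont_int (by fun_prop) 0 Y).const_mul _),
    integral_const_mul, integral_const_mul, int_cos Y hY, int_cos Y hY]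
  rw [if_neg (show ¬ ((k : ℤ) + l + 2 = 0) by omega)]
  by_cases h : k = l
  · subst h
    simp
    ring
  · rw [if_neg (show ¬ ((k : ℤ) - l = 0) by omega), if_neg h]
    simp

/-! ### the `L²` norm of an orthogonal series -/

theorem meas_tsum {Ω ι : Type} [MeasurableSpace Ω] [Countable ι] (f : ι → Ω → ℝ)
    (hm : ∀ i, Measurable (f i)) (hs : ∀ q, Summable fun i => f i q) :
    Measurable fun q => ∑' i, f i q := by
  refine measurable_of_tendsto_metrizable' (atTop : Filter (Finset ι))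
    (f := fun (s : Finset ι) (q : Ω) => ∑ i ∈ s, f i q)
    (fun s => Finset.measurable_sum s fun i _ => hm i) (tendsto_pi_nhds.2 fun q => ?_)
  have h := (hs q).hasSum
  simpa [HasSum] using h

theorem orth {Ω ι : Type} [MeasurableSpace Ω] [Countable ι] (μ : Measure Ω) [IsFiniteMeasure μ]
    (φ : ι → Ω → ℝ) (hm : ∀ i, Measurable (φ i)) (h1 : ∀ i q, |φ i q| ≤ 1) (c : ι → ℝ)
    (hc : Summable fun i => |c i|) (K : ℝ) (hK : 0 ≤ K)
    (ho : ∀ i j, i ≠ j → ∫ q, φ i q * φ j q ∂μ = 0) (hs : ∀ i, ∫ q, φ i q * φ i q ∂μ ≤ K) :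
    ∫⁻ q, ‖∑' i, c i * φ i q‖ₑ ^ 2 ∂μ ≤ ∑' i, ENNReal.ofReal (K * c i ^ 2) := by
  have hbd : ∀ i q, ‖c i * φ i q‖ ≤ |c i| := by
    intro i q
    rw [norm_mul, Real.norm_eq_abs, Real.norm_eq_abs]
    calc |c i| * |φ i q| ≤ |c i| * 1 := mul_le_mul_of_nonneg_left (h1 i q) (abs_nonneg _)
      _ = |c i| := mul_one _
  have hsum : ∀ q, Summable fun i => ‖c i * φ i q‖ := fun q =>
    Summable.of_nonneg_of_le (fun _ => norm_nonneg _) (fun i => hbd i q) hc
  have hF2 : ∀ q, (∑' i, c i * φ i q) ^ 2 =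
      ∑' p : ι × ι, (c p.1 * φ p.1 q) * (c p.2 * φ p.2 q) := by
    intro q
    rw [sq]
    exact tsum_mul_tsum_of_summable_norm (hsum q) (hsum q)
  have hcc : Summable fun p : ι × ι => |c p.1| * |c p.2| :=
    hc.mul_of_nonneg hc (fun _ => abs_nonneg _) (fun _ => abs_nonneg _)
  have hb2 : ∀ (p : ι × ι) q, ‖(c p.1 * φ p.1 q) * (c p.2 * φ p.2 q)‖ ≤ |c p.1| * |c p.2| := by
    intro p q
    rw [norm_mul]
    exact mul_le_mul (hbd _ _) (hbd _ _) (norm_nonneg _) (abs_nonneg _)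
  have hmeas : ∀ p : ι × ι, Measurable fun q => (c p.1 * φ p.1 q) * (c p.2 * φ p.2 q) := fun p =>
    ((hm p.1).const_mul _).mul ((hm p.2).const_mul _)
  have hint : ∀ p : ι × ι, Integrable (fun q => (c p.1 * φ p.1 q) * (c p.2 * φ p.2 q)) μ := fun p =>
    Integrable.mono' (integrable_const (|c p.1| * |c p.2|)) (hmeas p).aestronglyMeasurable
      (Eventually.of_forall fun q => hb2 p q)
  have hns : Summable fun p : ι × ι => ∫ q, ‖(c p.1 * φ p.1 q) * (c p.2 * φ p.2 q)‖ ∂μ := by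
    refine Summable.of_nonneg_of_le (fun p => integral_nonneg fun q => norm_nonneg _) (fun p => ?_)
      (hcc.mul_left (μ.real univ))
    calc ∫ q, ‖(c p.1 * φ p.1 q) * (c p.2 * φ p.2 q)‖ ∂μ ≤ ∫ q, |c p.1| * |c p.2| ∂μ :=
          integral_mono (hint p).norm (integrable_const _) (fun q => hb2 p q)
      _ = μ.real univ * (|c p.1| * |c p.2|) := by rw [integral_const, smul_eq_mul]
  have hHS := hasSum_integral_of_summable_integral_norm hint hns
  have hintF : Integrable (fun q => ∑' p : ι × ι, (c p.1 * φ p.1 q) * (c p.2 * φ p.2 q)) μ := by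
    refine Integrable.mono' (integrable_const (∑' p : ι × ι, |c p.1| * |c p.2|))
      (meas_tsum (fun (p : ι × ι) q => (c p.1 * φ p.1 q) * (c p.2 * φ p.2 q)) hmeas fun q =>
        Summable.of_norm_bounded hcc fun p => hb2 p q).aestronglyMeasurable
      (Eventually.of_forall fun q => ?_)
    exact tsum_of_norm_bounded hcc.hasSum fun p => hb2 p q
  have e1 : ∫⁻ q, ‖∑' i, c i * φ i q‖ₑ ^ 2 ∂μ =
      ENNReal.ofReal (∫ q, ∑' p : ι × ι, (c p.1 * φ p.1 q) * (c p.2 * φ p.2 q) ∂μ) := by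
    rw [ofReal_integral_eq_lintegral_ofReal hintF (Eventually.of_forall fun q => by
      show 0 ≤ ∑' p : ι × ι, (c p.1 * φ p.1 q) * (c p.2 * φ p.2 q)
      rw [← hF2 q]; exact sq_nonneg _)]
    refine lintegral_congr fun q => ?_
    rw [← hF2 q, Real.enorm_eq_ofReal_abs, ← ENNReal.ofReal_pow (abs_nonneg _), sq_abs]
  rw [e1, ← hHS.tsum_eq]
  have hI : ∀ p : ι × ι, ∫ q, (c p.1 * φ p.1 q) * (c p.2 * φ p.2 q) ∂μ =
      c p.1 * c p.2 * ∫ q, φ p.1 q * φ p.2 q ∂μ := by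
    intro p
    rw [← integral_const_mul]
    refine integral_congr_ae (Eventually.of_forall fun q => ?_)
    show _ = _
    ring
  have hsI : Summable fun p : ι × ι => ∫ q, (c p.1 * φ p.1 q) * (c p.2 * φ p.2 q) ∂μ := hHS.summable
  have hsK : Summable fun i => K * c i ^ 2 := by
    have h2 : Summable fun i => |c i| * |c i| := by
      have h3 := hcc.comp_injective (i := fun i : ι => (i, i)) (fun a b h => (Prod.ext_iff.mp h).1)
      exact h3
    refine (h2.mul_left K).congr fun i => ?_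
    rw [← sq, sq_abs]
  have e2 : ∑' p : ι × ι, ∫ q, (c p.1 * φ p.1 q) * (c p.2 * φ p.2 q) ∂μ ≤ ∑' i, K * c i ^ 2 := by
    rw [hsI.tsum_prod]
    have e3 : ∀ i, ∑' j, ∫ q, (c (i, j).1 * φ (i, j).1 q) * (c (i, j).2 * φ (i, j).2 q) ∂μ =
        c i ^ 2 * ∫ q, φ i q * φ i q ∂μ := by
      intro i
      rw [tsum_eq_single i]
      · rw [hI (i, i)]
        ring
      · intro j hj
        rw [hI (i, j), ho i j (Ne.symm hj), mul_zero]
    simp only [e3]
    have hle : ∀ i, c i ^ 2 * ∫ q, φ i q * φ i q ∂μ ≤ K * c i ^ 2 := by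
      intro i
      rw [mul_comm]
      exact mul_le_mul_of_nonneg_right (hs i) (sq_nonneg _)
    refine Summable.tsum_le_tsum hle ?_ hsK
    refine Summable.of_nonneg_of_le (fun i => ?_) hle hsK
    exact mul_nonneg (sq_nonneg _) (integral_nonneg fun q => mul_self_nonneg _)
  calc ENNReal.ofReal (∑' p : ι × ι, ∫ q, (c p.1 * φ p.1 q) * (c p.2 * φ p.2 q) ∂μ)
      ≤ ENNReal.ofReal (∑' i, K * c i ^ 2) := ENNReal.ofReal_le_ofReal e2
    _ = ∑' i, ENNReal.ofReal (K * c i ^ 2) :=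
        ENNReal.ofReal_tsum_of_nonneg (fun i => mul_nonneg hK (sq_nonneg _)) hsK

/-! ### summability -/

theorem kap_pos (Y : ℝ) (hY : 0 < Y) (k : ℕ) : 0 < kap Y k := by
  unfold kap
  have := Real.pi_pos
  positivity

theorem sum_inv2 : Summable fun k : ℕ => 1 / ((k : ℝ) + 1) ^ 2 := by
  have h := (summable_nat_add_iff 1).2 (Real.summable_one_div_nat_pow.2 (by norm_num : 1 < 2))
  refine h.congr fun k => ?_
  push_cast
  rfl

theorem sum_exp (Y : ℝ) (hY : 0 < Y) (t : ℝ) (ht : 0 < t) :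
    Summable fun k : ℕ => Real.exp (-(kap Y k ^ 2 * t)) := by
  have hp := Real.pi_pos
  refine Summable.of_nonneg_of_le (fun _ => (Real.exp_pos _).le) (fun k => ?_)
    (sum_inv2.mul_left (Y ^ 2 / (Real.pi ^ 2 * t)))
  have h0 := kap_pos Y hY k
  have h1 : kap Y k ^ 2 * t ≤ Real.exp (kap Y k ^ 2 * t) := by
    linarith [Real.add_one_le_exp (kap Y k ^ 2 * t)]
  have h2 : 0 < kap Y k ^ 2 * t := by positivity
  rw [Real.exp_neg]
  calc (Real.exp (kap Y k ^ 2 * t))⁻¹ ≤ (kap Y k ^ 2 * t)⁻¹ := inv_anti₀ h2 h1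
    _ = Y ^ 2 / (Real.pi ^ 2 * t) * (1 / ((k : ℝ) + 1) ^ 2) := by
        unfold kap
        field_simp

theorem sum_kexp (Y : ℝ) (hY : 0 < Y) (t : ℝ) (ht : 0 < t) :
    Summable fun k : ℕ => kap Y k * Real.exp (-(kap Y k ^ 2 * t)) := by
  have hp := Real.pi_pos
  refine Summable.of_nonneg_of_le (fun k => mul_nonneg (kap_pos Y hY k).le (Real.exp_pos _).le)
    (fun k => ?_) (sum_inv2.mul_left (2 * Y ^ 3 / (Real.pi ^ 3 * t ^ 2)))
  have h0 := kap_pos Y hY k
  have h2 : 0 < kap Y k ^ 2 * t := by positivity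
  have h1 : (kap Y k ^ 2 * t) ^ 2 / 2 ≤ Real.exp (kap Y k ^ 2 * t) := by
    have := Real.quadratic_le_exp_of_nonneg h2.le
    linarith
  rw [Real.exp_neg]
  calc kap Y k * (Real.exp (kap Y k ^ 2 * t))⁻¹ ≤ kap Y k * ((kap Y k ^ 2 * t) ^ 2 / 2)⁻¹ :=
        mul_le_mul_of_nonneg_left (inv_anti₀ (by positivity) h1) h0.le
    _ = 2 * Y ^ 3 / (Real.pi ^ 3 * t ^ 2) * (1 / ((k : ℝ) + 1) ^ 3) := by
        unfold kap
        field_simp
    _ ≤ 2 * Y ^ 3 / (Real.pi ^ 3 * t ^ 2) * (1 / ((k : ℝ) + 1) ^ 2) := by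
        apply mul_le_mul_of_nonneg_left _ (by positivity)
        apply one_div_le_one_div_of_le (by positivity)
        apply pow_le_pow_right₀ _ (by norm_num)
        have := Nat.cast_nonneg (α := ℝ) k
        linarith

/-! ### the two estimates for a fixed time -/

theorem rec_fin (Y B : ℝ) : IsFiniteMeasure (volume.restrict (Rec Y B)) := by
  constructor
  rw [Measure.restrict_apply_univ]
  unfold Rec
  rw [Measure.volume_eq_prod, Measure.prod_prod]
  simp [ENNReal.mul_lt_top]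

theorem int_rec (Y B : ℝ) (f g : ℝ → ℝ) :
    ∫ q in Rec Y B, f q.1 * g q.2 = (∫ x in Ioo 0 Y, f x) * ∫ y in Ioo 0 B, g y := by
  unfold Rec
  rw [Measure.volume_eq_prod, setIntegral_prod_mul]

/-- abbreviation: the rate -/
noncomputable def mu (Y B : ℝ) (p : ℕ × ℕ) : ℝ := kap Y p.1 ^ 2 + kap B p.2 ^ 2

theorem sumx (Y B : ℝ) (hY : 0 < Y) (hB : 0 < B) (b : ℕ × ℕ → ℝ) (M : ℝ) (hb : ∀ p, |b p| ≤ M)
    (t : ℝ) (ht : 0 < t) :
    Summable fun p : ℕ × ℕ => |b p * Real.exp (-(mu Y B p * t)) * kap Y p.1| := by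
  have h := (sum_kexp Y hY t ht).mul_of_nonneg (sum_exp B hB t ht)
    (fun k => mul_nonneg (kap_pos Y hY k).le (Real.exp_pos _).le) (fun k => (Real.exp_pos _).le)
  refine Summable.of_nonneg_of_le (fun _ => abs_nonneg _) (fun p => ?_) (h.mul_left M)
  have e : Real.exp (-(mu Y B p * t)) =
      Real.exp (-(kap Y p.1 ^ 2 * t)) * Real.exp (-(kap B p.2 ^ 2 * t)) := by
    rw [← Real.exp_add]
    congr 1
    unfold mu
    ring
  rw [abs_mul, abs_mul, abs_of_pos (Real.exp_pos _), abs_of_pos (kap_pos Y hY p.1), e]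
  calc |b p| * (Real.exp (-(kap Y p.1 ^ 2 * t)) * Real.exp (-(kap B p.2 ^ 2 * t))) * kap Y p.1
      = |b p| * (kap Y p.1 * Real.exp (-(kap Y p.1 ^ 2 * t)) * Real.exp (-(kap B p.2 ^ 2 * t))) := by
        ring
    _ ≤ M * (kap Y p.1 * Real.exp (-(kap Y p.1 ^ 2 * t)) * Real.exp (-(kap B p.2 ^ 2 * t))) := by
        apply mul_le_mul_of_nonneg_right (hb p)
        have := (kap_pos Y hY p.1).le
        positivity

theorem sumy (Y B : ℝ) (hY : 0 < Y) (hB : 0 < B) (b : ℕ × ℕ → ℝ) (M : ℝ) (hb : ∀ p, |b p| ≤ M)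
    (t : ℝ) (ht : 0 < t) :
    Summable fun p : ℕ × ℕ => |b p * Real.exp (-(mu Y B p * t)) * kap B p.2| := by
  have h := (sum_exp Y hY t ht).mul_of_nonneg (sum_kexp B hB t ht)
    (fun k => (Real.exp_pos _).le) (fun k => mul_nonneg (kap_pos B hB k).le (Real.exp_pos _).le)
  refine Summable.of_nonneg_of_le (fun _ => abs_nonneg _) (fun p => ?_) (h.mul_left M)
  have e : Real.exp (-(mu Y B p * t)) =
      Real.exp (-(kap Y p.1 ^ 2 * t)) * Real.exp (-(kap B p.2 ^ 2 * t)) := by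
    rw [← Real.exp_add]
    congr 1
    unfold mu
    ring
  rw [abs_mul, abs_mul, abs_of_pos (Real.exp_pos _), abs_of_pos (kap_pos B hB p.2), e]
  calc |b p| * (Real.exp (-(kap Y p.1 ^ 2 * t)) * Real.exp (-(kap B p.2 ^ 2 * t))) * kap B p.2
      = |b p| * (Real.exp (-(kap Y p.1 ^ 2 * t)) * (kap B p.2 * Real.exp (-(kap B p.2 ^ 2 * t)))) := by
        ring
    _ ≤ M * (Real.exp (-(kap Y p.1 ^ 2 * t)) * (kap B p.2 * Real.exp (-(kap B p.2 ^ 2 * t)))) := by
        apply mul_le_mul_of_nonneg_right (hb p)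
        have := (kap_pos B hB p.2).le
        positivity

theorem abs_mul_le_one {x y : ℝ} (hx : |x| ≤ 1) (hy : |y| ≤ 1) : |x * y| ≤ 1 := by
  rw [abs_mul]
  calc |x| * |y| ≤ 1 * 1 := mul_le_mul hx hy (abs_nonneg _) (by norm_num)
    _ = 1 := one_mul _

theorem normx (Y B : ℝ) (hY : 0 < Y) (hB : 0 < B) (b : ℕ × ℕ → ℝ) (M : ℝ) (hb : ∀ p, |b p| ≤ M)
    (t : ℝ) (ht : 0 < t) :
    ∫⁻ q in Rec Y B, ‖∑' p : ℕ × ℕ, b p * Real.exp (-(mu Y B p * t)) *
      (kap Y p.1 * Real.cos (kap Y p.1 * q.1) * Real.sin (kap B p.2 * q.2))‖ₑ ^ 2 ≤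
    ∑' p : ℕ × ℕ, ENNReal.ofReal (Y * B / 4 * (b p * Real.exp (-(mu Y B p * t)) * kap Y p.1) ^ 2) := by
  haveI := rec_fin Y B
  have hφ : ∀ p p' : ℕ × ℕ, ∫ q in Rec Y B,
      (Real.cos (kap Y p.1 * q.1) * Real.sin (kap B p.2 * q.2)) *
      (Real.cos (kap Y p'.1 * q.1) * Real.sin (kap B p'.2 * q.2)) =
      (if p.1 = p'.1 then Y / 2 else 0) * (if p.2 = p'.2 then B / 2 else 0) := by
    intro p p'
    rw [← int_cc Y hY, ← int_ss B hB, ← int_rec Y B
      (fun x => Real.cos (kap Y p.1 * x) * Real.cos (kap Y p'.1 * x))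
      (fun y => Real.sin (kap B p.2 * y) * Real.sin (kap B p'.2 * y))]
    refine integral_congr_ae (Eventually.of_forall fun q => ?_)
    show _ = _
    ring
  have h := orth (volume.restrict (Rec Y B))
    (fun (p : ℕ × ℕ) (q : ℝ × ℝ) => Real.cos (kap Y p.1 * q.1) * Real.sin (kap B p.2 * q.2))
    (fun p => by fun_prop)
    (fun p q => abs_mul_le_one (Real.abs_cos_le_one _) (Real.abs_sin_le_one _))
    (fun p => b p * Real.exp (-(mu Y B p * t)) * kap Y p.1) (sumx Y B hY hB b M hb t ht)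
    (Y * B / 4) (by positivity)
    (by
      intro p p' hp
      rw [hφ p p']
      by_cases h1 : p.1 = p'.1
      · have h2 : p.2 ≠ p'.2 := fun h2 => hp (Prod.ext h1 h2)
        rw [if_neg h2, mul_zero]
      · rw [if_neg h1, zero_mul])
    (by
      intro p
      rw [hφ p p, if_pos rfl, if_pos rfl]
      apply le_of_eq
      ring)
  refine le_trans (le_of_eq ?_) h
  refine lintegral_congr fun q => ?_
  congr 3
  funext p
  ring

theorem normy (Y B : ℝ) (hY : 0 < Y) (hB : 0 < B) (b : ℕ × ℕ → ℝ) (M : ℝ) (hb : ∀ p, |b p| ≤ M)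
    (t : ℝ) (ht : 0 < t) :
    ∫⁻ q in Rec Y B, ‖∑' p : ℕ × ℕ, b p * Real.exp (-(mu Y B p * t)) *
      (Real.sin (kap Y p.1 * q.1) * (kap B p.2 * Real.cos (kap B p.2 * q.2)))‖ₑ ^ 2 ≤
    ∑' p : ℕ × ℕ, ENNReal.ofReal (Y * B / 4 * (b p * Real.exp (-(mu Y B p * t)) * kap B p.2) ^ 2) := by
  haveI := rec_fin Y B
  have hφ : ∀ p p' : ℕ × ℕ, ∫ q in Rec Y B,
      (Real.sin (kap Y p.1 * q.1) * Real.cos (kap B p.2 * q.2)) *
      (Real.sin (kap Y p'.1 * q.1) * Real.cos (kap B p'.2 * q.2)) =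
      (if p.1 = p'.1 then Y / 2 else 0) * (if p.2 = p'.2 then B / 2 else 0) := by
    intro p p'
    rw [← int_ss Y hY, ← int_cc B hB, ← int_rec Y B
      (fun x => Real.sin (kap Y p.1 * x) * Real.sin (kap Y p'.1 * x))
      (fun y => Real.cos (kap B p.2 * y) * Real.cos (kap B p'.2 * y))]
    refine integral_congr_ae (Eventually.of_forall fun q => ?_)
    show _ = _
    ring
  have h := orth (volume.restrict (Rec Y B))
    (fun (p : ℕ × ℕ) (q : ℝ × ℝ) => Real.sin (kap Y p.1 * q.1) * Real.cos (kap B p.2 * q.2))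
    (fun p => by fun_prop)
    (fun p q => abs_mul_le_one (Real.abs_sin_le_one _) (Real.abs_cos_le_one _))
    (fun p => b p * Real.exp (-(mu Y B p * t)) * kap B p.2) (sumy Y B hY hB b M hb t ht)
    (Y * B / 4) (by positivity)
    (by
      intro p p' hp
      rw [hφ p p']
      by_cases h1 : p.1 = p'.1
      · have h2 : p.2 ≠ p'.2 := fun h2 => hp (Prod.ext h1 h2)
        rw [if_neg h2, mul_zero]
      · rw [if_neg h1, zero_mul])
    (by
      intro p
      rw [hφ p p, if_pos rfl, if_pos rfl]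
      apply le_of_eq
      ring)
  refine le_trans (le_of_eq ?_) h
  refine lintegral_congr fun q => ?_
  congr 3
  funext p
  ring

/-! ### integration in time -/

theorem int_time (μ : ℝ) (hμ : 0 < μ) (a : ℝ) (ha : 0 ≤ a) :
    ∫⁻ t in Ioi (0 : ℝ), ENNReal.ofReal (a * (μ * Real.exp (-(μ * t)) ^ 2)) = ENNReal.ofReal (a / 2) := by
  have e : ∀ t : ℝ, a * (μ * Real.exp (-(μ * t)) ^ 2) = (a * μ) * Real.exp (-(2 * μ) * t) := by
    intro t
    rw [← Real.exp_nat_mul]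
    have : ((2 : ℕ) : ℝ) * -(μ * t) = -(2 * μ) * t := by push_cast; ring
    rw [this]
    ring
  simp only [e]
  have hi : IntegrableOn (fun t : ℝ => (a * μ) * Real.exp (-(2 * μ) * t)) (Ioi 0) :=
    (exp_neg_integrableOn_Ioi 0 (by positivity : 0 < 2 * μ)).const_mul _
  rw [← ofReal_integral_eq_lintegral_ofReal hi (Eventually.of_forall fun t => by
    show 0 ≤ (a * μ) * Real.exp (-(2 * μ) * t)
    positivity), integral_const_mul, integral_exp_mul_Ioi (by linarith : -(2 * μ) < 0)]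
  congr 1
  simp
  field_simp

theorem main (h : S_PAR) : S_DIS := by
  intro Y B v hY hB hv
  have hP := h Y B v hY hB hv
  obtain ⟨b, hb⟩ : ∃ b : ℕ × ℕ → ℝ, b = fun p => bc Y B v p.1 p.2 := ⟨_, rfl⟩
  have hbp : ∀ p : ℕ × ℕ, bc Y B v p.1 p.2 = b p := fun p => by rw [hb]
  simp only [hbp] at hP ⊢
  have hYB : 0 < Y * B / 4 := by positivity
  have hs : Summable fun p : ℕ × ℕ => b p ^ 2 := by
    refine (hP.summable.mul_left (Y * B / 4)⁻¹).congr fun p => ?_
    field_simp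
  obtain ⟨M, hM⟩ : ∃ M : ℝ, ∀ p, |b p| ≤ M := by
    refine ⟨Real.sqrt (∑' p, b p ^ 2), fun p => Real.abs_le_sqrt ?_⟩
    exact hs.le_tsum p fun _ _ => sq_nonneg _
  have hmu : ∀ p : ℕ × ℕ, kap Y p.1 ^ 2 + kap B p.2 ^ 2 = mu Y B p := fun p => rfl
  simp only [hmu]
  have hmupos : ∀ p : ℕ × ℕ, 0 < mu Y B p := by
    intro p
    have := kap_pos Y hY p.1
    unfold mu
    positivity
  have hstep : ∀ t ∈ Ioi (0 : ℝ), ∫⁻ q in Rec Y B,
      (‖∑' p : ℕ × ℕ, b p * Real.exp (-(mu Y B p * t)) *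
        (kap Y p.1 * Real.cos (kap Y p.1 * q.1) * Real.sin (kap B p.2 * q.2))‖ₑ ^ 2 +
      ‖∑' p : ℕ × ℕ, b p * Real.exp (-(mu Y B p * t)) *
        (Real.sin (kap Y p.1 * q.1) * (kap B p.2 * Real.cos (kap B p.2 * q.2)))‖ₑ ^ 2) ≤
      ∑' p : ℕ × ℕ, ENNReal.ofReal (Y * B / 4 * b p ^ 2 * (mu Y B p * Real.exp (-(mu Y B p * t)) ^ 2)) := by
    intro t ht
    have ht0 : 0 < t := ht
    have hmeas : Measurable fun q : ℝ × ℝ => ‖∑' p : ℕ × ℕ, b p * Real.exp (-(mu Y B p * t)) *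
        (kap Y p.1 * Real.cos (kap Y p.1 * q.1) * Real.sin (kap B p.2 * q.2))‖ₑ ^ 2 := by
      have h1 := meas_tsum (fun (p : ℕ × ℕ) (q : ℝ × ℝ) => b p * Real.exp (-(mu Y B p * t)) *
        (kap Y p.1 * Real.cos (kap Y p.1 * q.1) * Real.sin (kap B p.2 * q.2)))
        (fun p => by fun_prop) (fun q => by
          refine Summable.of_norm_bounded (sumx Y B hY hB b M hM t ht0) fun p => ?_
          have e : b p * Real.exp (-(mu Y B p * t)) *
              (kap Y p.1 * Real.cos (kap Y p.1 * q.1) * Real.sin (kap B p.2 * q.2)) =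
              (b p * Real.exp (-(mu Y B p * t)) * kap Y p.1) *
              (Real.cos (kap Y p.1 * q.1) * Real.sin (kap B p.2 * q.2)) := by ring
          rw [e, Real.norm_eq_abs, abs_mul]
          exact mul_le_of_le_one_right (abs_nonneg _)
            (abs_mul_le_one (Real.abs_cos_le_one _) (Real.abs_sin_le_one _)))
      exact h1.enorm.pow_const 2
    rw [lintegral_add_left hmeas]
    refine (add_le_add (normx Y B hY hB b M hM t ht0) (normy Y B hY hB b M hM t ht0)).trans ?_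
    rw [← ENNReal.tsum_add]
    refine le_of_eq (tsum_congr fun p => ?_)
    rw [← ENNReal.ofReal_add (by positivity) (by positivity)]
    congr 1
    unfold mu
    ring
  refine lt_of_le_of_lt (setLIntegral_mono' measurableSet_Ioi hstep) ?_
  rw [lintegral_tsum (fun p => by
    apply Measurable.aemeasurable
    fun_prop)]
  have hterm : ∀ p : ℕ × ℕ, ∫⁻ t in Ioi (0 : ℝ),
      ENNReal.ofReal (Y * B / 4 * b p ^ 2 * (mu Y B p * Real.exp (-(mu Y B p * t)) ^ 2)) =
      ENNReal.ofReal (Y * B / 4 * b p ^ 2 / 2) := fun p =>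
    int_time (mu Y B p) (hmupos p) (Y * B / 4 * b p ^ 2) (by positivity)
  simp only [hterm]
  have hs2 : Summable fun p : ℕ × ℕ => Y * B / 4 * b p ^ 2 / 2 := hP.summable.div_const 2
  rw [← ENNReal.ofReal_tsum_of_nonneg (fun p => by positivity) hs2]
  exact ENNReal.ofReal_lt_top

end Pool.Agent.H74.OD.T.DIS
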