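import Pool.Agent.H74.OD.Stm

/-!
# Project OD, FIN: final assembly
-/

set_option autoImplicit false

namespace Pool.Agent.H74.OD.T.FIN

open MeasureTheory Filter Topology Set
open scoped ENNReal
open Pool.Agent.H74.CD (pd Duct)

theorem duct_meas (A B c : ℝ) : MeasurableSet (Duct A B c) := by
  have h : IsOpen (Duct A B c) := by
    unfold Duct
    exact (isOpen_lt continuous_const (continuous_apply 0)).inter
      ((isOpen_lt (continuous_apply 0) continuous_const).inter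
        ((isOpen_lt continuous_const (continuous_apply 1)).inter
          ((isOpen_lt (continuous_apply 1) continuous_const).inter
            (isOpen_lt (continuous_abs.comp (continuous_apply 2)) continuous_const))))
  exact h.measurableSet

theorem par_of_ne (w : ℝ → ℝ → ℝ → ℝ) (t : ℝ) (x : Fin 3 → ℝ) (k : Fin 3) (hk : k ≠ 2) :
    par w t x k = 0 := by
  fin_cases k
  · rfl
  · rfl
  · exact absurd rfl hk

theorem pd_zero (i : Fin 3) (x : Fin 3 → ℝ) : pd i (fun _ => (0 : ℝ)) x = 0 := by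
  simp [pd]

theorem cont_w {Y : ℝ} {w : ℝ → ℝ → ℝ → ℝ} {t : ℝ}
    (h : ContDiffOn ℝ 2 (par w t) {x : Fin 3 → ℝ | |x 0| < Y}) :
    ContinuousOn (fun q : ℝ × ℝ => w t q.1 q.2) {q : ℝ × ℝ | |q.1| < Y} := by
  have h1 : ContinuousOn (fun x => par w t x 2) {x : Fin 3 → ℝ | |x 0| < Y} :=
    (continuous_apply 2).comp_continuousOn h.continuousOn
  have h2 : Continuous (fun q : ℝ × ℝ => (![q.1, q.2, 0] : Fin 3 → ℝ)) := by
    refine continuous_pi fun i => ?_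
    fin_cases i
    · exact continuous_fst
    · exact continuous_snd
    · exact continuous_const
  exact h1.comp h2.continuousOn (fun q hq => hq)

theorem sec {Y t : ℝ} {f : ℝ → ℝ → ℝ → ℝ} (ht : 0 < t)
    (h : ContinuousOn (fun q : ℝ × ℝ × ℝ => f q.1 q.2.1 q.2.2) {q | 0 < q.1 ∧ |q.2.1| < Y}) :
    ContinuousOn (fun q : ℝ × ℝ => f t q.1 q.2) {q : ℝ × ℝ | |q.1| < Y} :=
  h.comp (f := fun q : ℝ × ℝ => (t, q)) (Continuous.continuousOn (by fun_prop))
    (fun q hq => ⟨ht, hq⟩)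

theorem bdd {Y A B T : ℝ} {f : ℝ → ℝ → ℝ → ℝ} (hT : 0 < T) (hAY : A < Y)
    (h : ContinuousOn (fun q : ℝ × ℝ × ℝ => f q.1 q.2.1 q.2.2) {q | 0 < q.1 ∧ |q.2.1| < Y}) :
    ∃ C : ℝ, ∀ t ∈ Icc (T / 2) T, ∀ x ∈ Icc 0 A, ∀ y ∈ Icc 0 B, |f t x y| ≤ C := by
  have hK : IsCompact (Icc (T / 2) T ×ˢ (Icc (0 : ℝ) A ×ˢ Icc (0 : ℝ) B)) :=
    isCompact_Icc.prod (isCompact_Icc.prod isCompact_Icc)
  obtain ⟨C, hC⟩ := hK.exists_bound_of_continuousOn (h.mono (by
    rintro ⟨t, x, y⟩ ⟨ht, hx, hy⟩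
    refine ⟨?_, ?_⟩
    · have := ht.1
      change 0 < t
      simp only at this
      linarith
    · change |x| < Y
      have h1 := hx.1
      have h2 := hx.2
      simp only at h1 h2
      rw [abs_lt]
      constructor <;> linarith))
  exact ⟨C, fun t ht x hx y hy => hC (t, x, y) ⟨ht, hx, hy⟩⟩

theorem rec_sub {Y A B : ℝ} (hAY : A < Y) : Rec A B ⊆ {q : ℝ × ℝ | |q.1| < Y} := by
  rintro ⟨x, y⟩ ⟨hx, hy⟩
  change |x| < Y
  have h1 := hx.1
  have h2 := hx.2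
  simp only at h1 h2
  rw [abs_of_pos h1]
  linarith

theorem rec_meas (A B : ℝ) : MeasurableSet (Rec A B) := measurableSet_Ioo.prod measurableSet_Ioo

theorem aem {Y A B : ℝ} {g : ℝ × ℝ → ℝ} (hAY : A < Y)
    (h : ContinuousOn g {q : ℝ × ℝ | |q.1| < Y}) : AEMeasurable g (volume.restrict (Rec A B)) :=
  (h.mono (rec_sub hAY)).aemeasurable (rec_meas A B)

/-- the series -/
noncomputable def W (Y B : ℝ) (b : ℕ → ℕ → ℝ) (t x y : ℝ) : ℝ := ∑' p : ℕ × ℕ,
    b p.1 p.2 * Real.exp (-((kap Y p.1 ^ 2 + kap B p.2 ^ 2) * t)) *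
      (Real.sin (kap Y p.1 * x) * Real.sin (kap B p.2 * y))

/-- the series of the derivative -/
noncomputable def Wx (Y B : ℝ) (b : ℕ → ℕ → ℝ) (t x y : ℝ) : ℝ := ∑' p : ℕ × ℕ,
    b p.1 p.2 * Real.exp (-((kap Y p.1 ^ 2 + kap B p.2 ^ 2) * t)) *
      (kap Y p.1 * Real.cos (kap Y p.1 * x) * Real.sin (kap B p.2 * y))

/-- the series of the derivative -/
noncomputable def Wy (Y B : ℝ) (b : ℕ → ℕ → ℝ) (t x y : ℝ) : ℝ := ∑' p : ℕ × ℕ,
    b p.1 p.2 * Real.exp (-((kap Y p.1 ^ 2 + kap B p.2 ^ 2) * t)) *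
      (Real.sin (kap Y p.1 * x) * (kap B p.2 * Real.cos (kap B p.2 * y)))

section

variable {Y B T : ℝ} {b : ℕ → ℕ → ℝ} {w wt wx wy wxx wyy wxy : ℝ → ℝ → ℝ → ℝ}

theorem late_x (h2 : Two Y B T b w wt wx wy wxx wyy wxy) {t x y : ℝ} (ht0 : 0 < t) (hT : T ≤ t)
    (hx : |x| < Y) : wx t x y = 0 := by
  have h1 := h2.dx t x y ht0 hx
  have h3 : (fun s => w t s y) =ᶠ[𝓝 x] fun _ => 0 := by
    have : {s : ℝ | |s| < Y} ∈ 𝓝 x := (isOpen_lt continuous_abs continuous_const).mem_nhds hx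
    filter_upwards [this] with s hs
    exact h2.late t s y hT hs
  exact h1.unique ((hasDerivAt_const x (0 : ℝ)).congr_of_eventuallyEq h3)

theorem late_y (h2 : Two Y B T b w wt wx wy wxx wyy wxy) {t x y : ℝ} (ht0 : 0 < t) (hT : T ≤ t)
    (hx : |x| < Y) : wy t x y = 0 := by
  have h1 := h2.dy t x y ht0 hx
  have h3 : (fun s => w t x s) = fun _ => 0 := by
    funext s
    exact h2.late t x s hT hx
  rw [h3] at h1
  exact h1.unique (hasDerivAt_const y (0 : ℝ))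

end

theorem main (ht : S_TWO) (hb : S_BDB) (hi : S_INI) (hd : S_DIS) (hp : S_NSP) (hf : S_FUB) :
    S_FIN := by
  intro A B T w₀ hA hB hT hw₀
  obtain ⟨Y, hAY⟩ : ∃ Y : ℝ, A < Y := ⟨A + 1, by linarith⟩
  have hY : 0 < Y := hA.trans hAY
  have hRm := rec_meas A B
  have hsub : Rec A B ⊆ Rec Y B := prod_mono (Ioo_subset_Ioo_right hAY.le) le_rfl
  obtain ⟨v, hv0⟩ : ∃ v : ℝ × ℝ → ℝ, v = (Rec A B).indicator w₀ := ⟨_, rfl⟩
  have hv : MemLp v 2 (volume.restrict (Rec Y B)) := by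
    rw [hv0, memLp_indicator_iff_restrict hRm, Measure.restrict_restrict hRm,
      inter_eq_left.2 hsub]
    exact hw₀
  obtain ⟨M, hM, hbM⟩ := hb Y B v hY hB hv
  obtain ⟨w, wt, wx, wy, wxx, wyy, wxy, h2⟩ := ht Y B T M hY hB hT hM (bc Y B v) hbM
  obtain ⟨hr1, hr2, hr3⟩ := hp Y B T (bc Y B v) w wt wx wy wxx wyy wxy hY h2
  have hN : ∀ x : Fin 3 → ℝ, 0 ≤ x 0 → x 0 ≤ A → |x 0| < Y := fun x h0 h1 => by
    rw [abs_of_nonneg h0]
    linarith
  refine ⟨par w, ?_⟩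
  refine { regular := ?_, axial := ?_, momentum := ?_, div := ?_, wall := ?_, rest := ?_,
           initial := ?_, energy := ?_ }
  · refine ⟨{x : Fin 3 → ℝ | |x 0| < Y},
      isOpen_lt (continuous_abs.comp (continuous_apply 0)) continuous_const,
      fun x hx => hN x hx.1 hx.2, hr1, hr2, ?_⟩
    intro i k
    by_cases hk : k = 2
    · subst hk
      have hmap : ContinuousOn (fun q : ℝ × (Fin 3 → ℝ) => ((q.1, q.2 0, q.2 1) : ℝ × ℝ × ℝ))
          (Ioi 0 ×ˢ {x : Fin 3 → ℝ | |x 0| < Y}) := by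
        apply Continuous.continuousOn
        fun_prop
      have hmaps : MapsTo (fun q : ℝ × (Fin 3 → ℝ) => ((q.1, q.2 0, q.2 1) : ℝ × ℝ × ℝ))
          (Ioi 0 ×ˢ {x : Fin 3 → ℝ | |x 0| < Y}) {q | 0 < q.1 ∧ |q.2.1| < Y} :=
        fun q hq => ⟨hq.1, hq.2⟩
      fin_cases i
      · refine (h2.cxx.comp hmap hmaps).congr fun q hq => ?_
        exact (hr3 q.1 hq.1 q.2 hq.2).2.2.1
      · refine (h2.cyy.comp hmap hmaps).congr fun q hq => ?_
        exact (hr3 q.1 hq.1 q.2 hq.2).2.2.2.1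
      · refine (continuousOn_const (c := (0 : ℝ))).congr fun q hq => ?_
        exact (hr3 q.1 hq.1 q.2 hq.2).2.2.2.2
    · have e : (fun q : ℝ × (Fin 3 → ℝ) => pd i (fun y => pd i (fun z => par w q.1 z k) y) q.2) =
          fun _ => 0 := by
        funext q
        simp only [par_of_ne w _ _ k hk, pd_zero]
      rw [e]
      exact continuousOn_const
  · intro t x
    exact ⟨rfl, rfl⟩
  · intro t ht0 x hx0 hx1 k
    have h3 := hr3 t ht0 x (hN x hx0 hx1)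
    by_cases hk : k = 2
    · subst hk
      rw [Fin.sum_univ_three, Fin.sum_univ_three, h3.2.2.1, h3.2.2.2.1, h3.2.2.2.2, h3.1.2.2]
      have e1 : deriv (fun s => par w s x 2) t = wt t (x 0) (x 1) :=
        (h2.dt t (x 0) (x 1) ht0 (hN x hx0 hx1)).deriv
      have e2 : par w t x 0 = 0 := rfl
      have e3 : par w t x 1 = 0 := rfl
      rw [e1, e2, e3, h2.eq t _ _ ht0 (hN x hx0 hx1)]
      ring
    · simp only [par_of_ne w _ _ k hk, pd_zero]
      simp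
  · intro t ht0 x hx0 hx1
    have h3 := hr3 t ht0 x (hN x hx0 hx1)
    rw [Fin.sum_univ_three, h3.1.2.2, h3.2.1 0 0 (by decide), h3.2.1 1 1 (by decide)]
    simp
  · intro t ht0 x hx0 hx1 hw
    have h3 := h2.wall t (x 0) (x 1) ht0 (hN x hx0 hx1) hw
    funext k
    by_cases hk : k = 2
    · subst hk
      exact h3
    · exact par_of_ne w t x k hk
  · intro t ht1 x hx0 hx1
    have h3 := h2.late t (x 0) (x 1) ht1 (hN x hx0 hx1)
    funext k
    by_cases hk : k = 2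
    · subst hk
      exact h3
    · exact par_of_ne w t x k hk
  · intro c hc
    have h0 : Tendsto (fun t : ℝ => ∫⁻ q in Rec Y B, ‖W Y B (bc Y B v) t q.1 q.2 - v q‖ₑ ^ 2)
        (𝓝[>] 0) (𝓝 0) := hi Y B v hY hB hv
    have h1 : Tendsto (fun t : ℝ => ENNReal.ofReal (2 * c) *
        ∫⁻ q in Rec Y B, ‖W Y B (bc Y B v) t q.1 q.2 - v q‖ₑ ^ 2) (𝓝[>] 0) (𝓝 0) := by
      have := ENNReal.Tendsto.const_mul (a := ENNReal.ofReal (2 * c)) h0
        (Or.inr ENNReal.ofReal_ne_top)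
      rwa [mul_zero] at this
    refine tendsto_of_tendsto_of_tendsto_of_le_of_le' tendsto_const_nhds h1
      (Eventually.of_forall fun _ => bot_le) ?_
    have hev : ∀ᶠ t in 𝓝[>] (0 : ℝ), t ∈ Ioc 0 (T / 2) := Ioc_mem_nhdsGT (by linarith)
    filter_upwards [hev] with t htt
    have h5 : ∫⁻ x in Duct A B c, ‖par w t x 2 - w₀ (x 0, x 1)‖ₑ ^ 2 =
        ENNReal.ofReal (2 * c) * ∫⁻ q in Rec A B, ‖w t q.1 q.2 - w₀ q‖ₑ ^ 2 :=
      hf A B c (fun q => ‖w t q.1 q.2 - w₀ q‖ₑ ^ 2) hc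
        (((aem hAY (cont_w (hr2 t htt.1))).sub hw₀.1.aemeasurable).enorm.pow_const 2)
    rw [h5]
    have h6 : ∫⁻ q in Rec A B, ‖w t q.1 q.2 - w₀ q‖ₑ ^ 2 ≤
        ∫⁻ q in Rec Y B, ‖W Y B (bc Y B v) t q.1 q.2 - v q‖ₑ ^ 2 := by
      calc ∫⁻ q in Rec A B, ‖w t q.1 q.2 - w₀ q‖ₑ ^ 2
          = ∫⁻ q in Rec A B, ‖W Y B (bc Y B v) t q.1 q.2 - v q‖ₑ ^ 2 := by
            refine setLIntegral_congr_fun hRm fun q hq => ?_
            have e1 : w t q.1 q.2 = W Y B (bc Y B v) t q.1 q.2 :=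
              h2.early t q.1 q.2 htt.1 htt.2 (rec_sub hAY hq)
            have e2 : v q = w₀ q := by
              rw [hv0, indicator_of_mem hq]
            simp only [e1, e2]
        _ ≤ ∫⁻ q in Rec Y B, ‖W Y B (bc Y B v) t q.1 q.2 - v q‖ₑ ^ 2 := lintegral_mono_set hsub
    exact mul_le_mul_right h6 _
  · intro c hc
    obtain ⟨C1, hC1⟩ := bdd (B := B) hT hAY h2.cx
    obtain ⟨C2, hC2⟩ := bdd (B := B) hT hAY h2.cy
    obtain ⟨D, hD0⟩ : ∃ D : ℝ → ℝ≥0∞, D = fun t => ∫⁻ q in Rec Y B,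
      (‖Wx Y B (bc Y B v) t q.1 q.2‖ₑ ^ 2 + ‖Wy Y B (bc Y B v) t q.1 q.2‖ₑ ^ 2) := ⟨_, rfl⟩
    have hD : ∫⁻ t in Ioi (0 : ℝ), D t < ⊤ := by
      rw [hD0]
      exact hd Y B v hY hB hv
    obtain ⟨K, hK0⟩ : ∃ K : ℝ≥0∞,
      K = (ENNReal.ofReal C1 ^ 2 + ENNReal.ofReal C2 ^ 2) * volume (Rec A B) := ⟨_, rfl⟩
    have hvol : volume (Rec A B) < ⊤ := by
      have h1 : Rec A B ⊆ Icc (0 : ℝ) A ×ˢ Icc (0 : ℝ) B :=
        prod_mono Ioo_subset_Icc_self Ioo_subset_Icc_self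
      exact (measure_mono h1).trans_lt (isCompact_Icc.prod isCompact_Icc).measure_lt_top
    have hK : K < ⊤ := by
      rw [hK0]
      exact ENNReal.mul_lt_top (ENNReal.add_lt_top.2 ⟨ENNReal.pow_lt_top ENNReal.ofReal_lt_top,
        ENNReal.pow_lt_top ENNReal.ofReal_lt_top⟩) hvol
    have hE : ∀ t ∈ Ioi (0 : ℝ), ∫⁻ x in Duct A B c,
        ∑ i, ∑ k, ‖pd i (fun y => par w t y k) x‖ₑ ^ 2 ≤
          ENNReal.ofReal (2 * c) * (D t + (Icc (T / 2) T).indicator (fun _ => K) t) := by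
      intro t ht0
      have ht0' : 0 < t := ht0
      have e1 : ∫⁻ x in Duct A B c, ∑ i, ∑ k, ‖pd i (fun y => par w t y k) x‖ₑ ^ 2 =
          ∫⁻ x in Duct A B c,
            (fun q : ℝ × ℝ => ‖wx t q.1 q.2‖ₑ ^ 2 + ‖wy t q.1 q.2‖ₑ ^ 2) (x 0, x 1) := by
        refine setLIntegral_congr_fun (duct_meas A B c) fun x hx => ?_
        have h3 := hr3 t ht0 x (hN x hx.1.le hx.2.1.le)
        simp only [Fin.sum_univ_three]
        rw [h3.2.1 0 0 (by decide), h3.2.1 0 1 (by decide), h3.2.1 1 0 (by decide),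
          h3.2.1 1 1 (by decide), h3.2.1 2 0 (by decide), h3.2.1 2 1 (by decide), h3.1.1,
          h3.1.2.1, h3.1.2.2]
        simp
      have e0 := hf A B c (fun q : ℝ × ℝ => ‖wx t q.1 q.2‖ₑ ^ 2 + ‖wy t q.1 q.2‖ₑ ^ 2) hc
        (((aem hAY (sec ht0' h2.cx)).enorm.pow_const 2).add
        ((aem hAY (sec ht0' h2.cy)).enorm.pow_const 2))
      rw [e1, e0]
      refine mul_le_mul_right ?_ _
      rcases le_or_gt t (T / 2) with h4 | h4
      · refine le_trans ?_ le_self_add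
        rw [hD0]
        calc ∫⁻ q in Rec A B, (‖wx t q.1 q.2‖ₑ ^ 2 + ‖wy t q.1 q.2‖ₑ ^ 2)
            = ∫⁻ q in Rec A B, (‖Wx Y B (bc Y B v) t q.1 q.2‖ₑ ^ 2 +
                ‖Wy Y B (bc Y B v) t q.1 q.2‖ₑ ^ 2) := by
              refine setLIntegral_congr_fun hRm fun q hq => ?_
              have e1 : wx t q.1 q.2 = Wx Y B (bc Y B v) t q.1 q.2 :=
                h2.earlyx t q.1 q.2 ht0' h4 (rec_sub hAY hq)
              have e2 : wy t q.1 q.2 = Wy Y B (bc Y B v) t q.1 q.2 :=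
                h2.earlyy t q.1 q.2 ht0' h4 (rec_sub hAY hq)
              simp only [e1, e2]
          _ ≤ _ := lintegral_mono_set hsub
      · rcases le_or_gt t T with h5 | h5
        · refine le_trans ?_ le_add_self
          rw [indicator_of_mem (show t ∈ Icc (T / 2) T from ⟨h4.le, h5⟩), hK0,
            ← setLIntegral_const]
          refine setLIntegral_mono' hRm fun q hq => ?_
          have hx : q.1 ∈ Icc 0 A := ⟨hq.1.1.le, hq.1.2.le⟩
          have hy : q.2 ∈ Icc 0 B := ⟨hq.2.1.le, hq.2.2.le⟩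
          have h6 : ‖wx t q.1 q.2‖ₑ ≤ ENNReal.ofReal C1 := by
            rw [Real.enorm_eq_ofReal_abs]
            exact ENNReal.ofReal_le_ofReal (hC1 t ⟨h4.le, h5⟩ _ hx _ hy)
          have h7 : ‖wy t q.1 q.2‖ₑ ≤ ENNReal.ofReal C2 := by
            rw [Real.enorm_eq_ofReal_abs]
            exact ENNReal.ofReal_le_ofReal (hC2 t ⟨h4.le, h5⟩ _ hx _ hy)
          exact add_le_add (pow_le_pow_left' h6 2) (pow_le_pow_left' h7 2)
        · have h6 : ∫⁻ q in Rec A B, (‖wx t q.1 q.2‖ₑ ^ 2 + ‖wy t q.1 q.2‖ₑ ^ 2) = 0 := by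
            rw [setLIntegral_congr_fun (g := fun _ => 0) hRm fun q hq => ?_]
            · simp
            · have e1 := late_x h2 (x := q.1) (y := q.2) ht0' h5.le (rec_sub hAY hq)
              have e2 := late_y h2 (x := q.1) (y := q.2) ht0' h5.le (rec_sub hAY hq)
              simp only [e1, e2]
              simp
          exact h6.le.trans bot_le
    calc ∫⁻ t in Ioi (0 : ℝ), ∫⁻ x in Duct A B c,
          ∑ i, ∑ k, ‖pd i (fun y => par w t y k) x‖ₑ ^ 2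
        ≤ ∫⁻ t in Ioi (0 : ℝ), ENNReal.ofReal (2 * c) *
            (D t + (Icc (T / 2) T).indicator (fun _ => K) t) :=
          setLIntegral_mono' measurableSet_Ioi hE
      _ = ENNReal.ofReal (2 * c) * ∫⁻ t in Ioi (0 : ℝ),
            (D t + (Icc (T / 2) T).indicator (fun _ => K) t) :=
          lintegral_const_mul' _ _ ENNReal.ofReal_ne_top
      _ = ENNReal.ofReal (2 * c) * ((∫⁻ t in Ioi (0 : ℝ), D t) +
            ∫⁻ t in Ioi (0 : ℝ), (Icc (T / 2) T).indicator (fun _ => K) t) := by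
          rw [lintegral_add_right _ (measurable_const.indicator measurableSet_Icc)]
      _ < ⊤ := by
          refine ENNReal.mul_lt_top ENNReal.ofReal_lt_top (ENNReal.add_lt_top.2 ⟨hD, ?_⟩)
          refine (setLIntegral_le_lintegral _ _).trans_lt ?_
          rw [lintegral_indicator_const measurableSet_Icc]
          exact ENNReal.mul_lt_top hK isCompact_Icc.measure_lt_top

end Pool.Agent.H74.OD.T.FIN
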