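import Pool.Agent.H74.OD.Stm

/-! # OD-INI -/

set_option autoImplicit false

namespace Pool.Agent.H74.OD.T.INI

open MeasureTheory Filter Topology Set
open scoped ENNReal

/-- the modes -/
noncomputable def ph (Y B : ℝ) (p : ℕ × ℕ) (q : ℝ × ℝ) : ℝ :=
  Real.sin (kap Y p.1 * q.1) * Real.sin (kap B p.2 * q.2)

/-- the decay factors -/
noncomputable def ex (Y B t : ℝ) (p : ℕ × ℕ) : ℝ := Real.exp (-((kap Y p.1 ^ 2 + kap B p.2 ^ 2) * t))

lemma cosint {Y : ℝ} (hY : 0 < Y) {j : ℤ} (hj : j ≠ 0) :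
    ∫ x in (0 : ℝ)..Y, Real.cos ((j * Real.pi / Y) * x) = 0 := by
  have hc : (j * Real.pi / Y : ℝ) ≠ 0 := by
    have : (j : ℝ) ≠ 0 := by exact_mod_cast hj
    have := Real.pi_ne_zero
    positivity
  rw [intervalIntegral.integral_comp_mul_left (fun u => Real.cos u) hc, integral_cos, mul_zero,
    Real.sin_zero, div_mul_cancel₀ _ hY.ne', Real.sin_int_mul_pi, sub_self, smul_zero]

lemma cosint' {Y : ℝ} (hY : 0 < Y) (j : ℤ) :
    ∫ x in (0 : ℝ)..Y, Real.cos ((j * Real.pi / Y) * x) = if j = 0 then Y else 0 := by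
  split_ifs with h
  · subst h
    simp
  · exact cosint hY h

lemma orth1 {Y : ℝ} (hY : 0 < Y) (k m : ℕ) :
    ∫ x in Ioo 0 Y, Real.sin (kap Y k * x) * Real.sin (kap Y m * x) = if k = m then Y / 2 else 0 := by
  rw [← integral_Ioc_eq_integral_Ioo, ← intervalIntegral.integral_of_le hY.le]
  have h1 : ∀ x : ℝ, Real.sin (kap Y k * x) * Real.sin (kap Y m * x) =
      2⁻¹ * Real.cos ((((k : ℤ) - m : ℤ) * Real.pi / Y) * x) -
        2⁻¹ * Real.cos ((((k : ℤ) + m + 2 : ℤ) * Real.pi / Y) * x) := by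
    intro x
    have e1 : (((k : ℤ) - m : ℤ) * Real.pi / Y) * x = kap Y k * x - kap Y m * x := by
      unfold kap; push_cast; ring
    have e2 : (((k : ℤ) + m + 2 : ℤ) * Real.pi / Y) * x = kap Y k * x + kap Y m * x := by
      unfold kap; push_cast; ring
    rw [e1, e2, Real.cos_sub, Real.cos_add]
    ring
  simp_rw [h1]
  rw [intervalIntegral.integral_sub, intervalIntegral.integral_const_mul,
    intervalIntegral.integral_const_mul, cosint' hY, cosint' hY]
  · have h2 : ((k : ℤ) + m + 2 : ℤ) ≠ 0 := by omega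
    rw [if_neg h2]
    by_cases h : k = m
    · rw [if_pos h, if_pos (by omega)]
      ring
    · rw [if_neg h, if_neg (by omega)]
      ring
  · exact (Continuous.intervalIntegrable (by fun_prop) _ _)
  · exact (Continuous.intervalIntegrable (by fun_prop) _ _)

lemma orth2 {Y B : ℝ} (hY : 0 < Y) (hB : 0 < B) (p r : ℕ × ℕ) :
    ∫ q in Rec Y B, ph Y B p q * ph Y B r q = if p = r then Y * B / 4 else 0 := by
  have h1 : ∀ q : ℝ × ℝ, ph Y B p q * ph Y B r q =
      (Real.sin (kap Y p.1 * q.1) * Real.sin (kap Y r.1 * q.1)) *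
        (Real.sin (kap B p.2 * q.2) * Real.sin (kap B r.2 * q.2)) := by
    intro q
    unfold ph
    ring
  simp_rw [h1]
  unfold Rec
  rw [Measure.volume_eq_prod, setIntegral_prod_mul
    (fun x => Real.sin (kap Y p.1 * x) * Real.sin (kap Y r.1 * x))
    (fun y => Real.sin (kap B p.2 * y) * Real.sin (kap B r.2 * y)), orth1 hY, orth1 hB]
  obtain ⟨a, b⟩ := p
  obtain ⟨c, d⟩ := r
  simp only [Prod.mk.injEq]
  by_cases h2 : a = c
  · by_cases h3 : b = d
    · rw [if_pos h2, if_pos h3, if_pos ⟨h2, h3⟩]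
      ring
    · rw [if_neg h3, if_neg (show ¬ (a = c ∧ b = d) from fun h => h3 h.2), mul_zero]
  · rw [if_neg h2, if_neg (show ¬ (a = c ∧ b = d) from fun h => h2 h.1), zero_mul]

lemma sum1 {Y t : ℝ} (hY : 0 < Y) (ht : 0 < t) : Summable (fun k : ℕ => Real.exp (-(kap Y k ^ 2 * t))) := by
  have h1 : Summable (fun k : ℕ => Real.exp ((k : ℝ) * (-((Real.pi / Y) ^ 2 * t)))) := by
    rw [Real.summable_exp_nat_mul_iff]
    have : 0 < Real.pi / Y := div_pos Real.pi_pos hY
    have : 0 < (Real.pi / Y) ^ 2 * t := by positivity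
    linarith
  refine Summable.of_nonneg_of_le (fun k => (Real.exp_pos _).le) (fun k => ?_) h1
  apply Real.exp_le_exp.2
  unfold kap
  have hk : (0 : ℝ) ≤ k := Nat.cast_nonneg k
  have h2 : ((k : ℝ) + 1) * Real.pi / Y = (k + 1) * (Real.pi / Y) := by ring
  rw [h2, mul_pow, mul_neg, neg_le_neg_iff]
  have h3 : (k : ℝ) ≤ (k + 1) ^ 2 := by nlinarith
  have h4 : 0 ≤ (Real.pi / Y) ^ 2 * t := by positivity
  calc (k : ℝ) * ((Real.pi / Y) ^ 2 * t) ≤ (k + 1) ^ 2 * ((Real.pi / Y) ^ 2 * t) :=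
        mul_le_mul_of_nonneg_right h3 h4
    _ = (k + 1) ^ 2 * (Real.pi / Y) ^ 2 * t := by ring

lemma sumex {Y B t : ℝ} (hY : 0 < Y) (hB : 0 < B) (ht : 0 < t) : Summable (ex Y B t) := by
  have h := (sum1 hY ht).mul_of_nonneg (sum1 hB ht) (fun k => (Real.exp_pos _).le)
    (fun k => (Real.exp_pos _).le)
  refine h.congr fun p => ?_
  unfold ex
  rw [← Real.exp_add]
  congr 1
  ring

lemma ph_le (Y B : ℝ) (p : ℕ × ℕ) (q : ℝ × ℝ) : |ph Y B p q| ≤ 1 := by
  unfold ph
  rw [abs_mul]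
  exact mul_le_one₀ (Real.abs_sin_le_one _) (abs_nonneg _) (Real.abs_sin_le_one _)

lemma ph_cont (Y B : ℝ) (p : ℕ × ℕ) : Continuous (ph Y B p) := by
  unfold ph
  fun_prop

instance finRec (Y B : ℝ) : IsFiniteMeasure (volume.restrict (Rec Y B)) := by
  refine ⟨?_⟩
  rw [Measure.restrict_apply_univ]
  exact ((Metric.isBounded_Ioo 0 Y).prod (Metric.isBounded_Ioo 0 B)).measure_lt_top

section
variable {Y B t M : ℝ} {b : ℕ × ℕ → ℝ}

/-- the solution at time `t` -/
noncomputable def W (Y B t : ℝ) (b : ℕ × ℕ → ℝ) (q : ℝ × ℝ) : ℝ :=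
  ∑' p : ℕ × ℕ, b p * ex Y B t p * ph Y B p q

lemma term_le (hb : ∀ p, |b p| ≤ M) (p : ℕ × ℕ) (q : ℝ × ℝ) :
    ‖b p * ex Y B t p * ph Y B p q‖ ≤ M * ex Y B t p := by
  have he : 0 < ex Y B t p := Real.exp_pos _
  rw [Real.norm_eq_abs, abs_mul, abs_mul, abs_of_pos he]
  calc |b p| * ex Y B t p * |ph Y B p q| ≤ |b p| * ex Y B t p * 1 :=
        mul_le_mul_of_nonneg_left (ph_le Y B p q) (by positivity)
    _ ≤ M * ex Y B t p := by
        rw [mul_one]
        exact mul_le_mul_of_nonneg_right (hb p) he.le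

lemma W_cont (hY : 0 < Y) (hB : 0 < B) (ht : 0 < t) (hb : ∀ p, |b p| ≤ M) : Continuous (W Y B t b) := by
  unfold W
  refine continuous_tsum (fun p => ?_) ((sumex hY hB ht).mul_left M) (fun p q => term_le hb p q)
  exact continuous_const.mul (ph_cont Y B p)

lemma W_bd (hY : 0 < Y) (hB : 0 < B) (ht : 0 < t) (hb : ∀ p, |b p| ≤ M) (q : ℝ × ℝ) :
    ‖W Y B t b q‖ ≤ ∑' p, M * ex Y B t p := by
  unfold W
  exact tsum_of_norm_bounded ((sumex hY hB ht).mul_left M).hasSum (fun p => term_le hb p q)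

lemma W_memLp (hY : 0 < Y) (hB : 0 < B) (ht : 0 < t) (hb : ∀ p, |b p| ≤ M) :
    MemLp (W Y B t b) 2 (volume.restrict (Rec Y B)) :=
  MemLp.of_bound (W_cont hY hB ht hb).aestronglyMeasurable _
    (Eventually.of_forall fun q => W_bd hY hB ht hb q)

lemma W_coef (hY : 0 < Y) (hB : 0 < B) (ht : 0 < t) (hb : ∀ p, |b p| ≤ M) (r : ℕ × ℕ) :
    ∫ q in Rec Y B, W Y B t b q * ph Y B r q = b r * ex Y B t r * (Y * B / 4) := by
  have hM : 0 ≤ M := le_trans (abs_nonneg _) (hb (0, 0))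
  have hint : ∀ p, Integrable (fun q => b p * ex Y B t p * ph Y B p q * ph Y B r q)
      (volume.restrict (Rec Y B)) := by
    intro p
    refine Integrable.of_bound
      ((continuous_const.mul (ph_cont Y B p)).mul (ph_cont Y B r)).aestronglyMeasurable
      (M * ex Y B t p) (Eventually.of_forall fun q => ?_)
    rw [norm_mul]
    exact (mul_le_of_le_one_right (norm_nonneg _) (ph_le Y B r q)).trans (term_le hb p q)
  have hsum : Summable fun p => ∫ q in Rec Y B, ‖b p * ex Y B t p * ph Y B p q * ph Y B r q‖ := by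
    refine Summable.of_nonneg_of_le (fun p => integral_nonneg fun q => norm_nonneg _) (fun p => ?_)
      ((sumex hY hB ht).mul_left (M * (volume.restrict (Rec Y B)).real univ))
    have h1 : ∀ᵐ q ∂(volume.restrict (Rec Y B)),
        ‖‖b p * ex Y B t p * ph Y B p q * ph Y B r q‖‖ ≤ M * ex Y B t p := by
      refine Eventually.of_forall fun q => ?_
      rw [norm_norm, norm_mul]
      exact (mul_le_of_le_one_right (norm_nonneg _) (ph_le Y B r q)).trans (term_le hb p q)
    have h2 := norm_integral_le_of_norm_le_const h1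
    have h3 := le_trans (le_abs_self _) h2
    calc _ ≤ M * ex Y B t p * (volume.restrict (Rec Y B)).real univ := h3
      _ = M * (volume.restrict (Rec Y B)).real univ * ex Y B t p := by ring
  have h1 := hasSum_integral_of_summable_integral_norm hint hsum
  have h2 : ∀ q, ∑' p, b p * ex Y B t p * ph Y B p q * ph Y B r q = W Y B t b q * ph Y B r q := by
    intro q
    unfold W
    rw [tsum_mul_right]
  simp_rw [h2] at h1
  have h3 : ∀ p, ∫ q in Rec Y B, b p * ex Y B t p * ph Y B p q * ph Y B r q =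
      if p = r then b r * ex Y B t r * (Y * B / 4) else 0 := by
    intro p
    have h4 : ∀ q, b p * ex Y B t p * ph Y B p q * ph Y B r q =
        b p * ex Y B t p * (ph Y B p q * ph Y B r q) := fun q => by ring
    simp_rw [h4]
    rw [integral_const_mul, orth2 hY hB]
    split_ifs with h
    · rw [h]
    · rw [mul_zero]
  simp_rw [h3] at h1
  exact h1.unique (hasSum_ite_eq r _)

end

lemma bc_eq (Y B : ℝ) (v : ℝ × ℝ → ℝ) (p : ℕ × ℕ) :
    bc Y B v p.1 p.2 = 4 / (Y * B) * ∫ q in Rec Y B, v q * ph Y B p q := rfl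

lemma int_mul {Y B : ℝ} {f : ℝ × ℝ → ℝ} (hf : MemLp f 2 (volume.restrict (Rec Y B))) (p : ℕ × ℕ) :
    Integrable (fun q => f q * ph Y B p q) (volume.restrict (Rec Y B)) := by
  have h1 : Integrable f (volume.restrict (Rec Y B)) := hf.integrable (by norm_num)
  exact h1.mul_bdd (c := 1) (ph_cont Y B p).aestronglyMeasurable
    (Eventually.of_forall fun q => ph_le Y B p q)

lemma enorm_sq (x : ℝ) : ‖x‖ₑ ^ 2 = ENNReal.ofReal (x ^ 2) := by
  rw [Real.enorm_eq_ofReal_abs, ← ENNReal.ofReal_pow (abs_nonneg x), sq_abs]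

theorem main (h : S_PAR) : S_INI := by
  intro Y B v hY hB hv
  set b : ℕ × ℕ → ℝ := fun p => bc Y B v p.1 p.2 with hbdef
  have hYB : 0 < Y * B := mul_pos hY hB
  have hpar := h Y B v hY hB hv
  -- bounded coefficients
  obtain ⟨M, hb⟩ : ∃ M, ∀ p, |b p| ≤ M := by
    refine ⟨√((∫ q in Rec Y B, v q ^ 2) * (4 / (Y * B))), fun p => Real.abs_le_sqrt ?_⟩
    have h1 := hpar.summable.le_tsum p (fun r _ => by positivity)
    rw [hpar.tsum_eq] at h1
    have h2 : b p ^ 2 = Y * B / 4 * bc Y B v p.1 p.2 ^ 2 * (4 / (Y * B)) := by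
      rw [hbdef]
      field_simp
    rw [h2]
    exact mul_le_mul_of_nonneg_right h1 (by positivity)
  have hW : ∀ (t : ℝ) (q : ℝ × ℝ), (∑' p : ℕ × ℕ,
      bc Y B v p.1 p.2 * Real.exp (-((kap Y p.1 ^ 2 + kap B p.2 ^ 2) * t)) *
      (Real.sin (kap Y p.1 * q.1) * Real.sin (kap B p.2 * q.2))) = W Y B t b q := fun t q => rfl
  simp_rw [hW]
  -- the coefficients of the difference
  have hcoef : ∀ t : ℝ, 0 < t → ∀ p : ℕ × ℕ,
      bc Y B (fun q => W Y B t b q - v q) p.1 p.2 = b p * (ex Y B t p - 1) := by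
    intro t ht p
    rw [bc_eq]
    have h1 : ∀ q, (W Y B t b q - v q) * ph Y B p q = W Y B t b q * ph Y B p q - v q * ph Y B p q :=
      fun q => by ring
    simp_rw [h1]
    rw [integral_sub (int_mul (W_memLp hY hB ht hb) p) (int_mul hv p), W_coef hY hB ht hb, mul_sub,
      ← bc_eq Y B v p]
    have h2 : 4 / (Y * B) * (b p * ex Y B t p * (Y * B / 4)) = b p * ex Y B t p := by
      field_simp
    rw [h2]
    ring
  -- Parseval
  have hnorm : ∀ t : ℝ, 0 < t → ∫ q in Rec Y B, (W Y B t b q - v q) ^ 2 =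
      ∑' p : ℕ × ℕ, Y * B / 4 * (b p * (ex Y B t p - 1)) ^ 2 := by
    intro t ht
    have h1 := h Y B (fun q => W Y B t b q - v q) hY hB ((W_memLp hY hB ht hb).sub hv)
    rw [← h1.tsum_eq]
    exact tsum_congr fun p => by rw [hcoef t ht p]
  have hlim : Tendsto (fun t : ℝ => ∑' p : ℕ × ℕ, Y * B / 4 * (b p * (ex Y B t p - 1)) ^ 2) (𝓝[>] 0)
      (𝓝 (∑' _ : ℕ × ℕ, (0 : ℝ))) := by
    refine tendsto_tsum_of_dominated_convergence (bound := fun p => Y * B / 4 * b p ^ 2)
      hpar.summable (fun p => ?_) ?_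
    · have h1 : Continuous fun t : ℝ => Y * B / 4 * (b p * (ex Y B t p - 1)) ^ 2 := by
        unfold ex
        fun_prop
      have h2 := h1.tendsto 0
      have h3 : Y * B / 4 * (b p * (ex Y B 0 p - 1)) ^ 2 = 0 := by
        unfold ex
        rw [mul_zero, neg_zero, Real.exp_zero, sub_self, mul_zero]
        norm_num
      rw [h3] at h2
      exact h2.mono_left nhdsWithin_le_nhds
    · filter_upwards [self_mem_nhdsWithin] with t ht p
      have ht' : (0 : ℝ) < t := ht
      rw [Real.norm_eq_abs, abs_of_nonneg (by positivity), mul_pow]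
      refine mul_le_mul_of_nonneg_left ?_ (by positivity)
      refine mul_le_of_le_one_right (sq_nonneg _) ?_
      have h1 : 0 < ex Y B t p := Real.exp_pos _
      have h2 : ex Y B t p ≤ 1 := by
        unfold ex
        rw [Real.exp_le_one_iff]
        have : 0 ≤ (kap Y p.1 ^ 2 + kap B p.2 ^ 2) * t := by positivity
        linarith
      nlinarith
  rw [tsum_zero] at hlim
  have hfin := ENNReal.tendsto_ofReal hlim
  rw [ENNReal.ofReal_zero] at hfin
  refine hfin.congr' ?_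
  filter_upwards [self_mem_nhdsWithin] with t ht
  have ht' : (0 : ℝ) < t := ht
  have hI : Integrable (fun q => (W Y B t b q - v q) ^ 2) (volume.restrict (Rec Y B)) :=
    ((W_memLp hY hB ht' hb).sub hv).integrable_sq
  rw [← hnorm t ht', ofReal_integral_eq_lintegral_ofReal hI (Eventually.of_forall fun q => sq_nonneg _)]
  refine lintegral_congr fun q => ?_
  rw [enorm_sq]

end Pool.Agent.H74.OD.T.INI
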