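import Pool.Agent.H74.OD.Stm

/-! OD-NSP (helper62): partial derivatives and regularity of the parallel flow -/

set_option autoImplicit false

namespace Pool.Agent.H74.OD.T.NSP

open MeasureTheory Filter Topology Set
open Pool.Agent.H74.OD
open Pool.Agent.H74.CD (pd)

/-- multiplication by `c` -/
noncomputable def S (c : ℝ) : ℝ →L[ℝ] ℝ := c • ContinuousLinearMap.id ℝ ℝ

lemma hS {g : ℝ → ℝ} {c x : ℝ} (h : HasDerivAt g c x) : HasFDerivAt g (S c) x :=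
  h.hasFDerivAt.congr_fderiv (by ext; simp [S])

lemma S_contDiff {n : WithTop ℕ∞} : ContDiff ℝ n S := contDiff_id.smul contDiff_const

section
variable {E₁ E₂ : Type} [NormedAddCommGroup E₁] [NormedSpace ℝ E₁] [NormedAddCommGroup E₂]
  [NormedSpace ℝ E₂]

lemma fd {U : Set (E₁ × E₂)} (hU : IsOpen U) {f : E₁ → E₂ → ℝ} {f₁ : E₁ × E₂ → E₁ →L[ℝ] ℝ}
    {f₂ : E₁ × E₂ → E₂ →L[ℝ] ℝ} (h₁ : ∀ v ∈ U, HasFDerivAt (fun x => f x v.2) (f₁ v) v.1)
    (h₂ : ∀ v ∈ U, HasFDerivAt (fun y => f v.1 y) (f₂ v) v.2)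
    (c₁ : ContinuousOn f₁ U) (c₂ : ContinuousOn f₂ U) :
    ∀ v ∈ U, HasFDerivAt (fun v : E₁ × E₂ => f v.1 v.2)
      ((f₁ v).comp (ContinuousLinearMap.fst ℝ E₁ E₂) +
        (f₂ v).comp (ContinuousLinearMap.snd ℝ E₁ E₂)) v := by
  intro v hv
  have hn : U ∈ 𝓝 v := hU.mem_nhds hv
  have h := hasStrictFDerivAt_uncurry_coprod (𝕜 := ℝ) (u := v) (f := f)
    (f₁ := fun a b => f₁ (a, b)) (f₂ := fun a b => f₂ (a, b))
    (by filter_upwards [hn] with q hq; exact h₁ q hq)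
    (by filter_upwards [hn] with q hq; exact h₂ q hq)
    ((c₁ v hv).continuousAt hn) ((c₂ v hv).continuousAt hn)
  refine HasFDerivAt.congr_fderiv (f := fun v : E₁ × E₂ => f v.1 v.2) h.hasFDerivAt ?_
  ext <;> simp [Function.HasUncurry.uncurry]

lemma cd {U : Set (E₁ × E₂)} (hU : IsOpen U) {f : E₁ → E₂ → ℝ} {f₁ : E₁ × E₂ → E₁ →L[ℝ] ℝ}
    {f₂ : E₁ × E₂ → E₂ →L[ℝ] ℝ} {n : ℕ}
    (h₁ : ∀ v ∈ U, HasFDerivAt (fun x => f x v.2) (f₁ v) v.1)
    (h₂ : ∀ v ∈ U, HasFDerivAt (fun y => f v.1 y) (f₂ v) v.2)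
    (c₁ : ContDiffOn ℝ n f₁ U) (c₂ : ContDiffOn ℝ n f₂ U) :
    ContDiffOn ℝ (n + 1) (fun v : E₁ × E₂ => f v.1 v.2) U := by
  rw [contDiffOn_succ_iff_hasFDerivWithinAt_of_uniqueDiffOn hU.uniqueDiffOn]
  refine ⟨fun h => by simp at h, fun v => (f₁ v).comp (ContinuousLinearMap.fst ℝ E₁ E₂) +
        (f₂ v).comp (ContinuousLinearMap.snd ℝ E₁ E₂), ?_, fun v hv =>
    (fd hU h₁ h₂ c₁.continuousOn c₂.continuousOn v hv).hasFDerivWithinAt⟩
  exact (c₁.clm_comp contDiffOn_const).add (c₂.clm_comp contDiffOn_const)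

lemma cd0 {U : Set (E₁ × E₂)} (hU : IsOpen U) {f : E₁ → E₂ → ℝ} {f₁ : E₁ × E₂ → E₁ →L[ℝ] ℝ}
    {f₂ : E₁ × E₂ → E₂ →L[ℝ] ℝ}
    (h₁ : ∀ v ∈ U, HasFDerivAt (fun x => f x v.2) (f₁ v) v.1)
    (h₂ : ∀ v ∈ U, HasFDerivAt (fun y => f v.1 y) (f₂ v) v.2)
    (c₁ : ContinuousOn f₁ U) (c₂ : ContinuousOn f₂ U) :
    ContDiffOn ℝ 1 (fun v : E₁ × E₂ => f v.1 v.2) U := by
  have e : ((0 : ℕ) : WithTop ℕ∞) + 1 = 1 := by simp
  have h := cd (n := 0) hU h₁ h₂ (by rw [Nat.cast_zero]; exact contDiffOn_zero.2 c₁)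
    (by rw [Nat.cast_zero]; exact contDiffOn_zero.2 c₂)
  rw [e] at h
  exact h

lemma cd1 {U : Set (E₁ × E₂)} (hU : IsOpen U) {f : E₁ → E₂ → ℝ} {f₁ : E₁ × E₂ → E₁ →L[ℝ] ℝ}
    {f₂ : E₁ × E₂ → E₂ →L[ℝ] ℝ}
    (h₁ : ∀ v ∈ U, HasFDerivAt (fun x => f x v.2) (f₁ v) v.1)
    (h₂ : ∀ v ∈ U, HasFDerivAt (fun y => f v.1 y) (f₂ v) v.2)
    (c₁ : ContDiffOn ℝ 1 f₁ U) (c₂ : ContDiffOn ℝ 1 f₂ U) :
    ContDiffOn ℝ 2 (fun v : E₁ × E₂ => f v.1 v.2) U := by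
  have e : ((1 : ℕ) : WithTop ℕ∞) + 1 = 2 := by norm_num
  have h := cd (n := 1) hU h₁ h₂ (by rw [Nat.cast_one]; exact c₁) (by rw [Nat.cast_one]; exact c₂)
  rw [e] at h
  exact h

end

/-- the projection to the first two coordinates -/
noncomputable def P : (Fin 3 → ℝ) →L[ℝ] ℝ × ℝ :=
  (ContinuousLinearMap.proj 0).prod (ContinuousLinearMap.proj 1)

lemma P_apply (x : Fin 3 → ℝ) : P x = (x 0, x 1) := rfl

lemma open_strip (Y : ℝ) : IsOpen {q : ℝ × ℝ | |q.1| < Y} :=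
  isOpen_lt (continuous_abs.comp continuous_fst) continuous_const

lemma open_strip3 (Y : ℝ) : IsOpen {x : Fin 3 → ℝ | |x 0| < Y} :=
  isOpen_lt (continuous_abs.comp (continuous_apply 0)) continuous_const

lemma pdf {f fx fy : ℝ → ℝ → ℝ} {Y : ℝ}
    (h₁ : ∀ x y, |x| < Y → HasDerivAt (fun s => f s y) (fx x y) x)
    (h₂ : ∀ x y, |x| < Y → HasDerivAt (fun s => f x s) (fy x y) y)
    (c₁ : ContinuousOn (fun q : ℝ × ℝ => fx q.1 q.2) {q | |q.1| < Y})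
    (c₂ : ContinuousOn (fun q : ℝ × ℝ => fy q.1 q.2) {q | |q.1| < Y}) :
    ContDiffOn ℝ 1 (fun q : ℝ × ℝ => f q.1 q.2) {q | |q.1| < Y} ∧
      ∀ x : Fin 3 → ℝ, |x 0| < Y → pd 0 (fun y => f (y 0) (y 1)) x = fx (x 0) (x 1) ∧
        pd 1 (fun y => f (y 0) (y 1)) x = fy (x 0) (x 1) ∧ pd 2 (fun y => f (y 0) (y 1)) x = 0 := by
  have g₁ : ∀ v ∈ {q : ℝ × ℝ | |q.1| < Y}, HasFDerivAt (fun x => f x v.2) (S (fx v.1 v.2)) v.1 :=
    fun v hv => hS (h₁ v.1 v.2 hv)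
  have g₂ : ∀ v ∈ {q : ℝ × ℝ | |q.1| < Y}, HasFDerivAt (fun y => f v.1 y) (S (fy v.1 v.2)) v.2 :=
    fun v hv => hS (h₂ v.1 v.2 hv)
  have k₁ : ContinuousOn (fun q : ℝ × ℝ => S (fx q.1 q.2)) {q | |q.1| < Y} :=
    (S_contDiff (n := 0)).continuous.comp_continuousOn c₁
  have k₂ : ContinuousOn (fun q : ℝ × ℝ => S (fy q.1 q.2)) {q | |q.1| < Y} :=
    (S_contDiff (n := 0)).continuous.comp_continuousOn c₂
  refine ⟨?_, fun x hx => ?_⟩
  · exact cd0 (open_strip Y) g₁ g₂ k₁ k₂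
  · have h := fd (open_strip Y) g₁ g₂ k₁ k₂ (P x) hx
    have h' : HasFDerivAt (fun y : Fin 3 → ℝ => f (y 0) (y 1)) _ x :=
      HasFDerivAt.comp (g := fun q : ℝ × ℝ => f q.1 q.2) x h P.hasFDerivAt
    unfold pd
    rw [h'.fderiv]
    refine ⟨?_, ?_, ?_⟩ <;> simp [S, P_apply]

theorem main : S_NSP := by
  intro Y B T b w wt wx wy wxx wyy wxy hY h
  have mk : ∀ g : ℝ → ℝ → ℝ → ℝ,
      ContinuousOn (fun q : ℝ × ℝ × ℝ => g q.1 q.2.1 q.2.2) {q | 0 < q.1 ∧ |q.2.1| < Y} →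
      ∀ t, 0 < t → ContinuousOn (fun q : ℝ × ℝ => g t q.1 q.2) {q | |q.1| < Y} := by
    intro g hg t ht
    exact hg.comp (f := fun q : ℝ × ℝ => (t, q)) (by fun_prop) (fun q hq => ⟨ht, hq⟩)
  have hw := fun t ht => pdf (f := w t) (fun x y hx => h.dx t x y ht hx)
    (fun x y hx => h.dy t x y ht hx) (mk _ h.cx t ht) (mk _ h.cy t ht)
  have hwx := fun t ht => pdf (f := wx t) (fun x y hx => h.dxx t x y ht hx)
    (fun x y hx => h.dxy t x y ht hx) (mk _ h.cxx t ht) (mk _ h.cxy t ht)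
  have hwy := fun t ht => pdf (f := wy t) (fun x y hx => h.dyx t x y ht hx)
    (fun x y hx => h.dyy t x y ht hx) (mk _ h.cxy t ht) (mk _ h.cyy t ht)
  refine ⟨?_, fun t ht => ?_, fun t ht x hx => ⟨?_, fun i k hk => ?_, ?_, ?_, ?_⟩⟩
  · -- first derivatives in space and time
    have hV : IsOpen {q : ℝ × ℝ × ℝ | 0 < q.1 ∧ |q.2.1| < Y} :=
      (isOpen_lt continuous_const continuous_fst).inter
        (isOpen_lt (continuous_abs.comp (continuous_fst.comp continuous_snd)) continuous_const)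
    have h3 : ContDiffOn ℝ 1 (fun q : ℝ × ℝ × ℝ => w q.1 q.2.1 q.2.2)
        {q | 0 < q.1 ∧ |q.2.1| < Y} := by
      exact cd0 (f := fun (t : ℝ) (q : ℝ × ℝ) => w t q.1 q.2)
        (f₁ := fun v : ℝ × ℝ × ℝ => S (wt v.1 v.2.1 v.2.2))
        (f₂ := fun v : ℝ × ℝ × ℝ => (S (wx v.1 v.2.1 v.2.2)).comp (ContinuousLinearMap.fst ℝ ℝ ℝ) +
          (S (wy v.1 v.2.1 v.2.2)).comp (ContinuousLinearMap.snd ℝ ℝ ℝ)) hV
        (fun v hv => hS (h.dt v.1 v.2.1 v.2.2 hv.1 hv.2))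
        (fun v hv => fd (open_strip Y) (fun u hu => hS (h.dx v.1 u.1 u.2 hv.1 hu))
          (fun u hu => hS (h.dy v.1 u.1 u.2 hv.1 hu))
          ((S_contDiff (n := 0)).continuous.comp_continuousOn (mk _ h.cx v.1 hv.1))
          ((S_contDiff (n := 0)).continuous.comp_continuousOn (mk _ h.cy v.1 hv.1)) v.2 hv.2)
        ((S_contDiff (n := 0)).continuous.comp_continuousOn h.ct)
        ((((S_contDiff (n := 0)).continuous.comp_continuousOn h.cx).clm_comp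
          (continuousOn_const (c := ContinuousLinearMap.fst ℝ ℝ ℝ))).add
          (((S_contDiff (n := 0)).continuous.comp_continuousOn h.cy).clm_comp
            (continuousOn_const (c := ContinuousLinearMap.snd ℝ ℝ ℝ))))
    refine contDiffOn_pi.2 fun k => ?_
    fin_cases k
    · exact contDiffOn_const
    · exact contDiffOn_const
    · have hQ : ContDiff ℝ 1 (fun q : ℝ × (Fin 3 → ℝ) => (q.1, P q.2)) :=
        contDiff_fst.prodMk (P.contDiff.comp contDiff_snd)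
      exact h3.comp hQ.contDiffOn (fun q hq => ⟨hq.1, hq.2⟩)
  · have h3 : ContDiffOn ℝ 2 (fun q : ℝ × ℝ => w t q.1 q.2) {q | |q.1| < Y} := by
      exact cd1 (f := fun x y => w t x y) (f₁ := fun v : ℝ × ℝ => S (wx t v.1 v.2))
        (f₂ := fun v : ℝ × ℝ => S (wy t v.1 v.2)) (open_strip Y)
        (fun v hv => hS (h.dx t v.1 v.2 ht hv)) (fun v hv => hS (h.dy t v.1 v.2 ht hv))
        ((S_contDiff (n := 1)).comp_contDiffOn (hwx t ht).1)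
        ((S_contDiff (n := 1)).comp_contDiffOn (hwy t ht).1)
    refine contDiffOn_pi.2 fun k => ?_
    fin_cases k
    · exact contDiffOn_const
    · exact contDiffOn_const
    · exact h3.comp P.contDiff.contDiffOn (fun q hq => hq)
  · exact (hw t ht).2 x hx
  · fin_cases k
    · show fderiv ℝ (fun _ : Fin 3 → ℝ => (0 : ℝ)) x _ = 0
      simp
    · show fderiv ℝ (fun _ : Fin 3 → ℝ => (0 : ℝ)) x _ = 0
      simp
    · exact absurd rfl hk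
  · have he : (fun y : Fin 3 → ℝ => pd 0 (fun z => par w t z 2) y) =ᶠ[𝓝 x]
        fun y => wx t (y 0) (y 1) := by
      filter_upwards [(open_strip3 Y).mem_nhds hx] with y hy using ((hw t ht).2 y hy).1
    have h1 := ((hwx t ht).2 x hx).1
    unfold pd at h1 ⊢
    unfold pd at he
    rw [he.fderiv_eq]
    exact h1
  · have he : (fun y : Fin 3 → ℝ => pd 1 (fun z => par w t z 2) y) =ᶠ[𝓝 x]
        fun y => wy t (y 0) (y 1) := by
      filter_upwards [(open_strip3 Y).mem_nhds hx] with y hy using ((hw t ht).2 y hy).2.1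
    have h1 := ((hwy t ht).2 x hx).2.1
    unfold pd at h1 ⊢
    unfold pd at he
    rw [he.fderiv_eq]
    exact h1
  · have he : (fun y : Fin 3 → ℝ => pd 2 (fun z => par w t z 2) y) =ᶠ[𝓝 x]
        fun _ => (0 : ℝ) := by
      filter_upwards [(open_strip3 Y).mem_nhds hx] with y hy using ((hw t ht).2 y hy).2.2
    unfold pd at he ⊢
    rw [he.fderiv_eq]
    simp

end Pool.Agent.H74.OD.T.NSP
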