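import Pool.Agent.H74.OD.Stm
import Pool.Agent.H72.Lib.S3997.NC.Free

/-!
# OD-ONED: controlled solutions in one space dimension with uniform bounds
-/

set_option autoImplicit false

open Set Filter Topology Finset

namespace Pool.Agent.H74.OD.T.ONED

open Pool.Agent.H74.OD
open Pool.Agent.Q61.NC (IsJet Bd mulJ cutJ cutJ_jet cutJ_bd choose_mul_fact Good sh FE FO Dom dE om lam
  fr cj lam_nonneg summ_exp term_le summable_sq term_bounds tsum_dE cj_good cj_left cj_right)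

/-- product of jets at one point, with explicit constants -/
theorem mul_bd {A B : ℕ → ℝ → ℝ} {r C D t : ℝ} (hr : 0 ≤ r) (hC : 0 ≤ C) (hD : 0 ≤ D)
    (h1 : ∀ i : ℕ, |A i t| ≤ C * r ^ i * ((2 * i).factorial : ℝ))
    (h2 : ∀ i : ℕ, |B i t| ≤ D * r ^ i * ((2 * i).factorial : ℝ)) (i : ℕ) :
    |mulJ A B i t| ≤ C * D * (2 * r) ^ i * ((2 * i).factorial : ℝ) := by
  calc |mulJ A B i t| ≤ ∑ p ∈ antidiagonal i, |(i.choose p.1 : ℝ) * (A p.1 t * B p.2 t)| :=
        Finset.abs_sum_le_sum_abs _ _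
    _ ≤ ∑ p ∈ antidiagonal i, C * D * r ^ i * ((2 * i).factorial : ℝ) := by
        refine Finset.sum_le_sum fun p hp => ?_
        have hp' : p.1 + p.2 = i := Finset.HasAntidiagonal.mem_antidiagonal.1 hp
        rw [abs_mul, abs_mul, Nat.abs_cast]
        calc (i.choose p.1 : ℝ) * (|A p.1 t| * |B p.2 t|)
            ≤ (i.choose p.1 : ℝ) * ((C * r ^ p.1 * ((2 * p.1).factorial : ℝ)) *
                (D * r ^ p.2 * ((2 * p.2).factorial : ℝ))) := by
              gcongr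
              · exact h1 _
              · exact h2 _
          _ = C * D * r ^ (p.1 + p.2) * ((i.choose p.1 : ℝ) *
                (((2 * p.1).factorial : ℝ) * ((2 * p.2).factorial : ℝ))) := by
              rw [pow_add]; ring
          _ ≤ C * D * r ^ (p.1 + p.2) * ((2 * i).factorial : ℝ) := by
              gcongr
              exact choose_mul_fact i _ _ hp'
          _ = _ := by rw [hp']
    _ = (i + 1 : ℝ) * (C * D * r ^ i * ((2 * i).factorial : ℝ)) := by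
        rw [Finset.sum_const, Finset.Nat.card_antidiagonal, nsmul_eq_mul]
        push_cast
        ring
    _ ≤ 2 ^ i * (C * D * r ^ i * ((2 * i).factorial : ℝ)) := by
        gcongr
        have : i + 1 ≤ 2 ^ i := Nat.lt_two_pow_self
        exact_mod_cast this
    _ = C * D * (2 * r) ^ i * ((2 * i).factorial : ℝ) := by
        rw [mul_pow]; ring

/-- the free jet with an explicit constant -/
theorem fr_bd' {L : ℝ} (hL : 0 < L) {M : ℝ} (hM : 0 ≤ M) {r : ℝ} (hr : 0 < r) (t₁ : ℝ) (ht₁ : 0 < t₁) :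
    ∃ D : ℝ, 0 ≤ D ∧ ∀ a : ℤ → ℝ, (∀ k, |a k| ≤ M * (1 + lam L k)) → ∀ (i : ℕ) (t : ℝ), t₁ ≤ t →
      |fr L a i t| ≤ D * r ^ i * ((2 * i).factorial : ℝ) := by
  have hs := summ_exp hL (by positivity : 0 < t₁ / 2)
  set S : ℝ := ∑' k : ℤ, Real.exp (-(lam L k * (t₁ / 2))) with hS
  have hS0 : 0 ≤ S := tsum_nonneg fun k => (Real.exp_pos _).le
  refine ⟨M * (1 + 4 / t₁) * Real.exp (4 / t₁ / r) * S, by positivity, fun a ha i t ht => ?_⟩
  have h1 : |fr L a i t| ≤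
      M * (1 + 4 / t₁) * ((i.factorial : ℝ) * (4 / t₁) ^ i) * S := by
    rw [fr, ← tsum_mul_left]
    rw [← Real.norm_eq_abs]
    exact tsum_of_norm_bounded (hs.mul_left _).hasSum fun k =>
      term_le hM (lam_nonneg L k) (ha k) ht₁ ht i
  have h2 : (i.factorial : ℝ) * (4 / t₁) ^ i ≤
      Real.exp (4 / t₁ / r) * (r ^ i * ((2 * i).factorial : ℝ)) := by
    have h3 := Real.pow_div_factorial_le_exp (4 / t₁ / r) (by positivity) i
    rw [div_le_iff₀ (by positivity)] at h3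
    have h4 : (4 / t₁) ^ i = (4 / t₁ / r) ^ i * r ^ i := by
      rw [← mul_pow]
      congr 1
      field_simp
    have h5 : (i.factorial : ℝ) * (i.factorial : ℝ) ≤ ((2 * i).factorial : ℝ) := by
      have h6 := Nat.factorial_mul_factorial_dvd_factorial_add i i
      have h7 := Nat.le_of_dvd (Nat.factorial_pos _) h6
      rw [← two_mul] at h7
      exact_mod_cast h7
    rw [h4]
    calc (i.factorial : ℝ) * ((4 / t₁ / r) ^ i * r ^ i)
        ≤ (i.factorial : ℝ) * ((Real.exp (4 / t₁ / r) * (i.factorial : ℝ)) * r ^ i) := by gcongr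
      _ = Real.exp (4 / t₁ / r) * (r ^ i * ((i.factorial : ℝ) * (i.factorial : ℝ))) := by ring
      _ ≤ _ := by gcongr
  calc |fr L a i t| ≤ M * (1 + 4 / t₁) * ((i.factorial : ℝ) * (4 / t₁) ^ i) * S := h1
    _ ≤ M * (1 + 4 / t₁) *
          (Real.exp (4 / t₁ / r) * (r ^ i * ((2 * i).factorial : ℝ))) * S := by gcongr
    _ = _ := by ring

/-- the uniform constant for the controlled jet -/
theorem cj_bd' {L T Y : ℝ} (hL : 0 < L) (hT : 0 < T) (hY : 0 < Y) {M : ℝ} (hM : 0 ≤ M) :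
    ∃ C : ℝ → ℝ, ∀ t₁ : ℝ, 0 < t₁ → 0 ≤ C t₁ ∧ ∀ a : ℤ → ℝ, (∀ k, |a k| ≤ M * (1 + lam L k)) →
      ∀ (i : ℕ) (t : ℝ), t₁ ≤ t →
        |cj L T Y a i t| ≤ C t₁ * (2 * (4 * (16 * Y ^ 2)⁻¹)) ^ i * ((2 * i).factorial : ℝ) := by
  have hK : 0 < 16 * Y ^ 2 := by positivity
  have h : ∀ t₁ : ℝ, ∃ C : ℝ, 0 < t₁ → 0 ≤ C ∧ ∀ a : ℤ → ℝ, (∀ k, |a k| ≤ M * (1 + lam L k)) →
      ∀ (i : ℕ) (t : ℝ), t₁ ≤ t →
        |cj L T Y a i t| ≤ C * (2 * (4 * (16 * Y ^ 2)⁻¹)) ^ i * ((2 * i).factorial : ℝ) := by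
    intro t₁
    by_cases ht₁ : 0 < t₁
    · obtain ⟨C, hC, h1⟩ := cutJ_bd T _ hT hK t₁ ht₁
      obtain ⟨D, hD, h2⟩ := fr_bd' hL hM (by positivity : 0 < 4 * (16 * Y ^ 2)⁻¹) t₁ ht₁
      exact ⟨C * D, fun _ => ⟨by positivity, fun a ha i t ht =>
        mul_bd (by positivity) hC hD (fun i => h1 i t ht) (fun i => h2 a ha i t ht) i⟩⟩
    · exact ⟨0, fun h => absurd h ht₁⟩
  choose C hC using h
  exact ⟨C, hC⟩

/-- the coefficients on the circle of length `2 Y` -/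
noncomputable def bz (b : ℕ → ℝ) (k : ℤ) : ℝ := if 1 ≤ k then b (k - 1).toNat else 0

theorem om_succ {Y : ℝ} (n : ℕ) : om (2 * Y) ((n : ℤ) + 1) = kap Y n := by
  rw [om, kap]
  push_cast
  rw [mul_assoc, mul_div_mul_left _ _ two_ne_zero, mul_comm]

theorem tsum_bz (b : ℕ → ℝ) (g : ℤ → ℝ) :
    ∑' k : ℤ, bz b k * g k = ∑' n : ℕ, b n * g ((n : ℤ) + 1) := by
  have hinj : Function.Injective (fun n : ℕ => (n : ℤ) + 1) := by
    intro m n h
    simp only [add_left_inj, Nat.cast_inj] at h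
    exact h
  have h := hinj.tsum_eq (f := fun k : ℤ => bz b k * g k) (by
    intro k hk
    rw [Function.mem_support] at hk
    have h1 : 1 ≤ k := by
      by_contra h1
      exact hk (by simp [bz, h1])
    exact ⟨(k - 1).toNat, by
      show (((k - 1).toNat : ℕ) : ℤ) + 1 = k
      rw [Int.toNat_of_nonneg (by linarith)]
      ring⟩)
  rw [← h]
  refine tsum_congr fun n => ?_
  have h1 : bz b ((n : ℤ) + 1) = b n := by
    have h2 : (1 : ℤ) ≤ (n : ℤ) + 1 := by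
      have : (0 : ℤ) ≤ n := Nat.cast_nonneg n
      linarith
    rw [bz, if_pos h2]
    simp
  show bz b ((n : ℤ) + 1) * g ((n : ℤ) + 1) = _
  rw [h1]

theorem bz_bd {b : ℕ → ℝ} {M : ℝ} (hM : 0 ≤ M) (hb : ∀ k, |b k| ≤ M) (L : ℝ) (k : ℤ) :
    |bz b k * om L k| ≤ M * (1 + lam L k) := by
  have h1 : |bz b k| ≤ M := by
    unfold bz
    split_ifs with h
    · exact hb _
    · rw [abs_zero]; exact hM
  have h2 : |om L k| ≤ 1 + lam L k := by
    rw [lam, ← sq_abs]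
    nlinarith [sq_nonneg (|om L k| - 1 / 2), abs_nonneg (om L k), sq_nonneg (|om L k| - 1)]
  rw [abs_mul]
  exact mul_le_mul h1 h2 (abs_nonneg _) hM

theorem main : S_ONED := by
  intro Y T M hY hT hM
  have hL : 0 < 2 * Y := by positivity
  obtain ⟨C0, hC0⟩ := cj_bd' hL hT hY hM.le
  set r : ℝ := 2 * (4 * (16 * Y ^ 2)⁻¹) with hr
  have hr0 : 0 < r := by positivity
  have hrY : r * Y ^ 2 < 1 := by
    have : r * Y ^ 2 = 1 / 2 := by
      rw [hr]
      field_simp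
      norm_num
    rw [this]
    norm_num
  have hsum := summable_sq (by positivity : 0 ≤ r * Y ^ 2) hrY
  set S2 : ℝ := ∑' i : ℕ, ((i : ℝ) + 1) ^ 2 * (r * Y ^ 2) ^ i with hS2
  have hS20 : 0 ≤ S2 := tsum_nonneg fun i => by positivity
  refine ⟨fun t₁ _ => C0 t₁ * Y * S2 + C0 t₁ * S2 + 2 * C0 t₁ / Y * S2, fun b hb => ?_⟩
  have ha := bz_bd hM.le hb (2 * Y)
  set a : ℤ → ℝ := fun k => bz b k * om (2 * Y) k with hadef
  have hg : Good Y (cj (2 * Y) T Y a) := cj_good hL hT hY hM.le ha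
  refine ⟨FO (cj (2 * Y) T Y a), FO (sh (cj (2 * Y) T Y a)), FE (cj (2 * Y) T Y a),
    FO (sh (cj (2 * Y) T Y a)), ⟨?_, ?_, ?_, ?_, ?_, ?_, ?_, ?_, ?_, ?_, ?_⟩, ?_⟩
  · exact fun t x ht hx => Pool.Agent.Q61.NC.FO_dt hY hg ht hx
  · exact fun t x ht hx => Pool.Agent.Q61.NC.FO_dy hY hg ht hx
  · exact fun t x ht hx => Pool.Agent.Q61.NC.FE_dy hY hg ht hx
  · exact fun t x _ _ => rfl
  · exact (Pool.Agent.Q61.NC.smooth_FO hY hg).continuousOn
  · exact (Pool.Agent.Q61.NC.smooth_FE hY hg).continuousOn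
  · exact (Pool.Agent.Q61.NC.smooth_FO hY (hg.shift hY)).continuousOn
  · exact fun t _ => Pool.Agent.Q61.NC.FO_zero _ t
  · intro t x ht htT hx
    have h1 : FO (cj (2 * Y) T Y a) t x = FO (fr (2 * Y) a) t x := by
      unfold FO
      refine tsum_congr fun i => ?_
      rw [cj_left hY a i ht htT]
    rw [h1, hadef, Pool.Agent.Q61.NC.FO_fr hL hM.le ha ht x]
    have h2 := tsum_bz b (fun k : ℤ => Real.exp (-(lam (2 * Y) k * t)) * Real.sin (om (2 * Y) k * x))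
    have h3 : ∀ k : ℤ, bz b k * Real.exp (-(lam (2 * Y) k * t)) * Real.sin (om (2 * Y) k * x) =
        bz b k * (Real.exp (-(lam (2 * Y) k * t)) * Real.sin (om (2 * Y) k * x)) := fun k => by ring
    simp_rw [h3]
    rw [h2]
    refine tsum_congr fun n => ?_
    simp only [lam, om_succ]
    ring
  · intro t x ht htT hx
    have h1 : FE (cj (2 * Y) T Y a) t x = FE (fr (2 * Y) a) t x := by
      unfold FE
      refine tsum_congr fun i => ?_
      rw [cj_left hY a i ht htT]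
    rw [h1, Pool.Agent.Q61.NC.FE_fr hL hM.le ha ht x]
    have h2 := tsum_bz b (fun k : ℤ => om (2 * Y) k * Real.exp (-(lam (2 * Y) k * t)) *
      Real.cos (om (2 * Y) k * x))
    have h3 : ∀ k : ℤ, a k * Real.exp (-(lam (2 * Y) k * t)) * Real.cos (om (2 * Y) k * x) =
        bz b k * (om (2 * Y) k * Real.exp (-(lam (2 * Y) k * t)) * Real.cos (om (2 * Y) k * x)) :=
      fun k => by rw [hadef]; ring
    rw [tsum_congr h3, h2]
    refine tsum_congr fun n => ?_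
    simp only [lam, om_succ]
    ring
  · intro t x ht hx
    exact Pool.Agent.Q61.NC.FO_of_zero (fun i => cj_right hT hY a i ht) x
  · intro t₁ Y₁ ht₁ _ hY₁ t x ht hx
    obtain ⟨hC, hbd⟩ := hC0 t₁ ht₁
    have ht0 : 0 < t := ht₁.trans_le ht
    have hx' : |x| < Y := hx.trans_lt hY₁
    have hterm := fun i => term_bounds hY hC hr0 i (hbd a ha i t ht) hx'
    have e1 : |FO (cj (2 * Y) T Y a) t x| ≤ C0 t₁ * Y * S2 := by
      unfold FO
      rw [← Real.norm_eq_abs]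
      exact tsum_of_norm_bounded (hsum.hasSum.mul_left (C0 t₁ * Y)) fun i => (hterm i).2.1
    have e2 : |FE (cj (2 * Y) T Y a) t x| ≤ C0 t₁ * S2 := by
      unfold FE
      rw [← Real.norm_eq_abs]
      exact tsum_of_norm_bounded (hsum.hasSum.mul_left (C0 t₁)) fun i => (hterm i).1
    have e3 : |FO (sh (cj (2 * Y) T Y a)) t x| ≤ 2 * C0 t₁ / Y * S2 := by
      rw [← tsum_dE hY hg ht0 hx', ← Real.norm_eq_abs]
      exact tsum_of_norm_bounded (hsum.hasSum.mul_left (2 * C0 t₁ / Y)) fun i => (hterm i).2.2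
    have p1 : 0 ≤ C0 t₁ * Y * S2 := by positivity
    have p2 : 0 ≤ C0 t₁ * S2 := by positivity
    have p3 : 0 ≤ 2 * C0 t₁ / Y * S2 := by positivity
    exact ⟨by linarith, by linarith, by linarith⟩

end Pool.Agent.H74.OD.T.ONED
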