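import Pool.Agent.H74.OD.Stm

/-! OD-PAR (helper61): Parseval for double sine series. -/

set_option autoImplicit false

namespace Pool.Agent.H74.OD.T.PAR

open Pool.Agent.H74.OD MeasureTheory Set Filter Topology

/-- the product sines as continuous functions -/
noncomputable def S (Y B : ℝ) (p : ℕ × ℕ) : C(ℝ × ℝ, ℝ) :=
  ⟨fun q => Real.sin (kap Y p.1 * q.1) * Real.sin (kap B p.2 * q.2), by fun_prop⟩

lemma S_apply (Y B : ℝ) (p : ℕ × ℕ) (q : ℝ × ℝ) :
    S Y B p q = Real.sin (kap Y p.1 * q.1) * Real.sin (kap B p.2 * q.2) := rfl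

/-- the two cosines -/
noncomputable def c1 (Y : ℝ) : C(ℝ × ℝ, ℝ) := ⟨fun q => Real.cos (Real.pi * q.1 / Y), by fun_prop⟩
noncomputable def c2 (B : ℝ) : C(ℝ × ℝ, ℝ) := ⟨fun q => Real.cos (Real.pi * q.2 / B), by fun_prop⟩

/-- the span of the product sines -/
noncomputable def W (Y B : ℝ) : Submodule ℝ C(ℝ × ℝ, ℝ) := Submodule.span ℝ (range (S Y B))

/-- multipliers of the span -/
noncomputable def A0 (Y B : ℝ) : Subalgebra ℝ C(ℝ × ℝ, ℝ) where
  carrier := {a | ∀ w ∈ W Y B, a * w ∈ W Y B}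
  mul_mem' := by
    intro a b ha hb w hw
    rw [mul_assoc]
    exact ha _ (hb _ hw)
  add_mem' := by
    intro a b ha hb w hw
    rw [add_mul]
    exact (W Y B).add_mem (ha _ hw) (hb _ hw)
  algebraMap_mem' := by
    intro r w hw
    rw [Algebra.algebraMap_eq_smul_one, smul_mul_assoc, one_mul]
    exact (W Y B).smul_mem r hw

lemma sin_step (Y : ℝ) (k : ℕ) (x : ℝ) : Real.cos (Real.pi * x / Y) * Real.sin (kap Y (k + 1) * x) =
    (1 / 2) * Real.sin (kap Y (k + 2) * x) + (1 / 2) * Real.sin (kap Y k * x) := by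
  have e1 : kap Y (k + 2) * x = kap Y (k + 1) * x + Real.pi * x / Y := by
    unfold kap; push_cast; ring
  have e2 : kap Y k * x = kap Y (k + 1) * x - Real.pi * x / Y := by
    unfold kap; push_cast; ring
  rw [e1, e2, Real.sin_add, Real.sin_sub]
  ring

lemma sin_step0 (Y : ℝ) (x : ℝ) : Real.cos (Real.pi * x / Y) * Real.sin (kap Y 0 * x) =
    (1 / 2) * Real.sin (kap Y 1 * x) := by
  have e1 : kap Y 1 * x = 2 * (Real.pi * x / Y) := by
    unfold kap; push_cast; ring
  have e2 : kap Y 0 * x = Real.pi * x / Y := by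
    unfold kap; push_cast; ring
  rw [e1, e2, Real.sin_two_mul]
  ring

lemma c1_mem (Y B : ℝ) : c1 Y ∈ A0 Y B := by
  intro w hw
  induction hw using Submodule.span_induction with
  | mem w hw =>
    obtain ⟨⟨k, n⟩, rfl⟩ := hw
    rcases k with _ | k
    · have e : c1 Y * S Y B (0, n) = (1 / 2 : ℝ) • S Y B (1, n) := by
        ext q
        have := sin_step0 Y q.1
        simp only [ContinuousMap.mul_apply, ContinuousMap.smul_apply, smul_eq_mul, S_apply]
        show Real.cos (Real.pi * q.1 / Y) * _ = _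
        rw [← mul_assoc, this]
        ring
      rw [e]
      exact (W Y B).smul_mem _ (Submodule.subset_span ⟨_, rfl⟩)
    · have e : c1 Y * S Y B (k + 1, n) = (1 / 2 : ℝ) • S Y B (k + 2, n) + (1 / 2 : ℝ) • S Y B (k, n) := by
        ext q
        have := sin_step Y k q.1
        simp only [ContinuousMap.mul_apply, ContinuousMap.add_apply, ContinuousMap.smul_apply, smul_eq_mul, S_apply]
        show Real.cos (Real.pi * q.1 / Y) * _ = _
        rw [← mul_assoc, this]
        ring
      rw [e]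
      exact (W Y B).add_mem ((W Y B).smul_mem _ (Submodule.subset_span ⟨_, rfl⟩))
        ((W Y B).smul_mem _ (Submodule.subset_span ⟨_, rfl⟩))
  | zero => rw [mul_zero]; exact (W Y B).zero_mem
  | add x y _ _ hx hy => rw [mul_add]; exact (W Y B).add_mem hx hy
  | smul r x _ hx => rw [mul_smul_comm]; exact (W Y B).smul_mem _ hx

lemma c2_mem (Y B : ℝ) : c2 B ∈ A0 Y B := by
  intro w hw
  induction hw using Submodule.span_induction with
  | mem w hw =>
    obtain ⟨⟨k, n⟩, rfl⟩ := hw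
    rcases n with _ | n
    · have e : c2 B * S Y B (k, 0) = (1 / 2 : ℝ) • S Y B (k, 1) := by
        ext q
        have := sin_step0 B q.2
        simp only [ContinuousMap.mul_apply, ContinuousMap.smul_apply, smul_eq_mul, S_apply]
        show Real.cos (Real.pi * q.2 / B) * _ = _
        rw [mul_left_comm, this]
        ring
      rw [e]
      exact (W Y B).smul_mem _ (Submodule.subset_span ⟨_, rfl⟩)
    · have e : c2 B * S Y B (k, n + 1) = (1 / 2 : ℝ) • S Y B (k, n + 2) + (1 / 2 : ℝ) • S Y B (k, n) := by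
        ext q
        have := sin_step B n q.2
        simp only [ContinuousMap.mul_apply, ContinuousMap.add_apply, ContinuousMap.smul_apply, smul_eq_mul, S_apply]
        show Real.cos (Real.pi * q.2 / B) * _ = _
        rw [mul_left_comm, this]
        ring
      rw [e]
      exact (W Y B).add_mem ((W Y B).smul_mem _ (Submodule.subset_span ⟨_, rfl⟩))
        ((W Y B).smul_mem _ (Submodule.subset_span ⟨_, rfl⟩))
  | zero => rw [mul_zero]; exact (W Y B).zero_mem
  | add x y _ _ hx hy => rw [mul_add]; exact (W Y B).add_mem hx hy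
  | smul r x _ hx => rw [mul_smul_comm]; exact (W Y B).smul_mem _ hx

lemma cos_inj {Y x y : ℝ} (hY : 0 < Y) (hx : x ∈ Icc 0 Y) (hy : y ∈ Icc 0 Y)
    (h : Real.cos (Real.pi * x / Y) = Real.cos (Real.pi * y / Y)) : x = y := by
  have hm : ∀ x ∈ Icc 0 Y, Real.pi * x / Y ∈ Icc 0 Real.pi := by
    intro x hx
    refine ⟨div_nonneg (mul_nonneg Real.pi_pos.le hx.1) hY.le, ?_⟩
    rw [div_le_iff₀ hY]
    exact mul_le_mul_of_nonneg_left hx.2 Real.pi_pos.le
  have h1 := Real.injOn_cos (hm x hx) (hm y hy) h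
  have h2 : Real.pi * x = Real.pi * y := by
    field_simp at h1
    nlinarith [Real.pi_pos]
  exact mul_left_cancel₀ Real.pi_pos.ne' h2

/-- approximation by multipliers on the closed rectangle -/
lemma approx {Y B : ℝ} (hY : 0 < Y) (hB : 0 < B) (g : C(ℝ × ℝ, ℝ)) {ε : ℝ} (hε : 0 < ε) :
    ∃ a ∈ A0 Y B, ∀ q ∈ Icc (0 : ℝ) Y ×ˢ Icc (0 : ℝ) B, ‖a q - g q‖ < ε := by
  have hK : IsCompact (Icc (0 : ℝ) Y ×ˢ Icc (0 : ℝ) B) := isCompact_Icc.prod isCompact_Icc
  have : CompactSpace ↥(Icc (0 : ℝ) Y ×ˢ Icc (0 : ℝ) B) := isCompact_iff_compactSpace.mp hK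
  let ι : C(↥(Icc (0 : ℝ) Y ×ˢ Icc (0 : ℝ) B), ℝ × ℝ) := ⟨Subtype.val, continuous_subtype_val⟩
  let r := ContinuousMap.compRightAlgHom ℝ ℝ ι
  have hsep : ((A0 Y B).map r).SeparatesPoints := by
    intro x y hxy
    by_cases h1 : x.1.1 = y.1.1
    · have h2 : x.1.2 ≠ y.1.2 := fun h2 => hxy (Subtype.ext (Prod.ext h1 h2))
      refine ⟨_, ⟨r (c2 B), ⟨c2 B, c2_mem Y B, rfl⟩, rfl⟩, fun h => h2 ?_⟩
      exact cos_inj hB x.2.2 y.2.2 h
    · refine ⟨_, ⟨r (c1 Y), ⟨c1 Y, c1_mem Y B, rfl⟩, rfl⟩, fun h => h1 ?_⟩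
      exact cos_inj hY x.2.1 y.2.1 h
  obtain ⟨⟨a', ⟨a, ha, rfl⟩⟩, h⟩ := ContinuousMap.exists_mem_subalgebra_near_continuous_of_separatesPoints
    ((A0 Y B).map r) hsep (fun q => g q.1) (by fun_prop) ε hε
  exact ⟨a, ha, fun q hq => h ⟨q, hq⟩⟩

/-- completeness -/
lemma complete {Y B : ℝ} (hY : 0 < Y) (hB : 0 < B) {f : ℝ × ℝ → ℝ} (hf : IntegrableOn f (Rec Y B) volume)
    (h : ∀ p, ∫ q in Rec Y B, S Y B p q * f q = 0) : ∀ᵐ q ∂(volume.restrict (Rec Y B)), f q = 0 := by
  have hRm : MeasurableSet (Rec Y B) := measurableSet_Ioo.prod measurableSet_Ioo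
  have hRo : IsOpen (Rec Y B) := isOpen_Ioo.prod isOpen_Ioo
  have hRK : Rec Y B ⊆ Icc (0 : ℝ) Y ×ˢ Icc (0 : ℝ) B := prod_mono Ioo_subset_Icc_self Ioo_subset_Icc_self
  have hK : IsCompact (Icc (0 : ℝ) Y ×ˢ Icc (0 : ℝ) B) := isCompact_Icc.prod isCompact_Icc
  -- products with continuous functions are integrable
  have hint : ∀ g : C(ℝ × ℝ, ℝ), IntegrableOn (fun q => g q * f q) (Rec Y B) volume := by
    intro g
    obtain ⟨M, hM⟩ := hK.exists_bound_of_continuousOn g.continuous.continuousOn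
    refine Integrable.bdd_mul hf g.continuous.aestronglyMeasurable (c := M) ?_
    filter_upwards [ae_restrict_mem hRm] with q hq
    exact hM q (hRK hq)
  have hW : ∀ w ∈ W Y B, ∫ q in Rec Y B, w q * f q = 0 := by
    intro w hw
    induction hw using Submodule.span_induction with
    | mem w hw => obtain ⟨p, rfl⟩ := hw; exact h p
    | zero => simp
    | add x y _ _ hx hy =>
      have e : ∀ q, (x + y) q * f q = x q * f q + y q * f q := fun q => by
        rw [ContinuousMap.add_apply]; ring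
      simp only [e]
      rw [integral_add (hint x) (hint y), hx, hy, add_zero]
    | smul r x _ hx =>
      have e : ∀ q, (r • x) q * f q = r * (x q * f q) := fun q => by
        rw [ContinuousMap.smul_apply, smul_eq_mul]; ring
      simp only [e]
      rw [integral_const_mul, hx, mul_zero]
  have hg : ∀ g : C(ℝ × ℝ, ℝ), ∫ q in Rec Y B, g q * (S Y B (0, 0) q * f q) = 0 := by
    intro g
    by_contra hne
    set I := ∫ q in Rec Y B, g q * (S Y B (0, 0) q * f q) with hI
    set N := ∫ q in Rec Y B, ‖f q‖ with hN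
    have hN0 : 0 ≤ N := integral_nonneg fun q => norm_nonneg _
    have hIp : 0 < ‖I‖ := norm_pos_iff.mpr hne
    obtain ⟨a, ha, hag⟩ := approx hY hB g (ε := ‖I‖ / (2 * (N + 1))) (by positivity)
    have h0 : ∫ q in Rec Y B, (a * S Y B (0, 0)) q * f q = 0 := hW _ (ha _ (Submodule.subset_span ⟨_, rfl⟩))
    have h1 : I = ∫ q in Rec Y B, ((g * S Y B (0, 0)) q * f q - (a * S Y B (0, 0)) q * f q) := by
      rw [integral_sub (hint _) (hint _), h0, sub_zero, hI]
      refine integral_congr_ae (ae_of_all _ fun q => ?_)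
      simp only [ContinuousMap.mul_apply]
      ring
    have h2 : ‖I‖ ≤ ∫ q in Rec Y B, ‖I‖ / (2 * (N + 1)) * ‖f q‖ := by
      rw [h1]
      refine norm_integral_le_of_norm_le (hf.norm.const_mul _) ?_
      filter_upwards [ae_restrict_mem hRm] with q hq
      rw [← h1]
      have h3 := hag q (hRK hq)
      have h4 : ‖S Y B (0, 0) q‖ ≤ 1 := by
        rw [S_apply, norm_mul, Real.norm_eq_abs, Real.norm_eq_abs]
        exact mul_le_one₀ (Real.abs_sin_le_one _) (abs_nonneg _) (Real.abs_sin_le_one _)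
      have e : (g * S Y B (0, 0)) q * f q - (a * S Y B (0, 0)) q * f q =
          (-(a q - g q)) * S Y B (0, 0) q * f q := by
        simp only [ContinuousMap.mul_apply]
        ring
      rw [e, norm_mul, norm_mul, norm_neg]
      refine mul_le_mul_of_nonneg_right ?_ (norm_nonneg _)
      calc ‖a q - g q‖ * ‖S Y B (0, 0) q‖ ≤ ‖a q - g q‖ * 1 := mul_le_mul_of_nonneg_left h4 (norm_nonneg _)
        _ ≤ _ := by rw [mul_one]; exact h3.le
    rw [integral_const_mul, ← hN] at h2
    have h5 : ‖I‖ / (2 * (N + 1)) * N ≤ ‖I‖ / 2 := by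
      rw [div_mul_eq_mul_div, div_le_div_iff₀ (by positivity) (by norm_num)]
      nlinarith
    linarith
  have hz := hRo.ae_eq_zero_of_integral_contDiff_smul_eq_zero (μ := volume)
    (f := fun q => S Y B (0, 0) q * f q) (hint _).locallyIntegrableOn ?_
  · rw [ae_restrict_iff' hRm]
    filter_upwards [hz] with q hq hqR
    have h1 := hq hqR
    have hs : 0 < S Y B (0, 0) q := by
      rw [S_apply]
      have key : ∀ {Y x : ℝ}, 0 < Y → x ∈ Ioo 0 Y → 0 < Real.sin (kap Y 0 * x) := by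
        intro Y x hY hx
        have e2 : kap Y 0 * x = Real.pi * x / Y := by
          unfold kap; push_cast; ring
        rw [e2]
        apply Real.sin_pos_of_pos_of_lt_pi
        · exact div_pos (mul_pos Real.pi_pos hx.1) hY
        · rw [div_lt_iff₀ hY]
          exact mul_lt_mul_of_pos_left hx.2 Real.pi_pos
      exact mul_pos (key hY hqR.1) (key hB hqR.2)
    exact (mul_eq_zero.mp h1).resolve_left hs.ne'
  · intro g hgd hgc hgs
    have h1 := hg ⟨g, hgd.continuous⟩
    rw [← h1, eq_comm]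
    refine setIntegral_eq_integral_of_forall_compl_eq_zero fun q hq => ?_
    have : g q = 0 := by
      by_contra hne
      exact hq (hgs (subset_tsupport _ hne))
    simp [this]

/-! orthogonality -/

lemma int_cos {Y : ℝ} (hY : 0 < Y) (m : ℤ) (hm : m ≠ 0) :
    ∫ x in (0 : ℝ)..Y, Real.cos ((m : ℝ) * Real.pi / Y * x) = 0 := by
  have hm' : (m : ℝ) ≠ 0 := by exact_mod_cast hm
  have hc : (m : ℝ) * Real.pi / Y ≠ 0 := div_ne_zero (mul_ne_zero hm' Real.pi_ne_zero) hY.ne'
  rw [intervalIntegral.integral_comp_mul_left (f := Real.cos) hc, integral_cos, mul_zero, Real.sin_zero, sub_zero,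
    div_mul_cancel₀ _ hY.ne', Real.sin_int_mul_pi, smul_zero]

lemma orth1 {Y : ℝ} (hY : 0 < Y) (k l : ℕ) :
    ∫ x in Ioo 0 Y, Real.sin (kap Y k * x) * Real.sin (kap Y l * x) = if k = l then Y / 2 else 0 := by
  rw [← integral_Ioc_eq_integral_Ioo, ← intervalIntegral.integral_of_le hY.le]
  have e : ∀ x, Real.sin (kap Y k * x) * Real.sin (kap Y l * x) =
      (1 / 2) * Real.cos ((((k : ℤ) - l : ℤ) : ℝ) * Real.pi / Y * x) -
        (1 / 2) * Real.cos ((((k : ℤ) + l + 2 : ℤ) : ℝ) * Real.pi / Y * x) := by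
    intro x
    have e1 : (((k : ℤ) - l : ℤ) : ℝ) * Real.pi / Y * x = kap Y k * x - kap Y l * x := by
      unfold kap; push_cast; ring
    have e2 : (((k : ℤ) + l + 2 : ℤ) : ℝ) * Real.pi / Y * x = kap Y k * x + kap Y l * x := by
      unfold kap; push_cast; ring
    rw [e1, e2, Real.cos_sub, Real.cos_add]
    ring
  simp only [e]
  rw [intervalIntegral.integral_sub (Continuous.intervalIntegrable (by fun_prop) _ _)
    (Continuous.intervalIntegrable (by fun_prop) _ _), intervalIntegral.integral_const_mul,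
    intervalIntegral.integral_const_mul, int_cos hY ((k : ℤ) + l + 2) (by omega)]
  split_ifs with h
  · subst h
    simp
    ring
  · rw [int_cos hY ((k : ℤ) - l) (by omega)]
    simp

lemma orth2 {Y B : ℝ} (hY : 0 < Y) (hB : 0 < B) (p q : ℕ × ℕ) :
    ∫ z in Rec Y B, S Y B p z * S Y B q z = if p = q then Y * B / 4 else 0 := by
  have e : ∀ z : ℝ × ℝ, S Y B p z * S Y B q z =
      (Real.sin (kap Y p.1 * z.1) * Real.sin (kap Y q.1 * z.1)) *
        (Real.sin (kap B p.2 * z.2) * Real.sin (kap B q.2 * z.2)) := by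
    intro z
    rw [S_apply, S_apply]
    ring
  simp only [e]
  rw [Rec, Measure.volume_eq_prod,
    setIntegral_prod_mul (fun x => Real.sin (kap Y p.1 * x) * Real.sin (kap Y q.1 * x))
      (fun y => Real.sin (kap B p.2 * y) * Real.sin (kap B q.2 * y)), orth1 hY, orth1 hB]
  rcases p with ⟨p1, p2⟩
  rcases q with ⟨q1, q2⟩
  by_cases h1 : p1 = q1 <;> by_cases h2 : p2 = q2 <;> simp [h1, h2]
  ring

lemma inner_toLp {α : Type*} [MeasurableSpace α] {μ : Measure α} {u w : α → ℝ} (hu : MemLp u 2 μ) (hw : MemLp w 2 μ) :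
    inner ℝ (hu.toLp u) (hw.toLp w) = ∫ a, u a * w a ∂μ := by
  rw [L2.inner_def]
  apply integral_congr_ae
  filter_upwards [hu.coeFn_toLp, hw.coeFn_toLp] with a h1 h2
  rw [h1, h2]
  simp [mul_comm]

theorem main : S_PAR := by
  intro Y B v hY hB hv
  have fin : IsFiniteMeasure (volume.restrict (Rec Y B)) := by
    refine ⟨?_⟩
    rw [Measure.restrict_apply_univ, Rec, Measure.volume_eq_prod, Measure.prod_prod]
    exact ENNReal.mul_lt_top (by simp) (by simp)
  have hYB : 0 < Y * B := mul_pos hY hB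
  obtain ⟨c, hc⟩ : ∃ c : ℝ, c = 2 / √(Y * B) := ⟨_, rfl⟩
  have hc0 : c ≠ 0 := by rw [hc]; positivity
  have hc2 : c ^ 2 = 4 / (Y * B) := by
    rw [hc, div_pow, Real.sq_sqrt hYB.le]
    norm_num
  have hm : ∀ p, MemLp (fun q => c * S Y B p q) 2 (volume.restrict (Rec Y B)) := by
    intro p
    refine MemLp.of_bound (Continuous.aestronglyMeasurable (by fun_prop)) |c| (ae_of_all _ fun q => ?_)
    rw [norm_mul, S_apply, norm_mul, Real.norm_eq_abs, Real.norm_eq_abs, Real.norm_eq_abs]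
    have := mul_le_one₀ (Real.abs_sin_le_one (kap Y p.1 * q.1)) (abs_nonneg _)
      (Real.abs_sin_le_one (kap B p.2 * q.2))
    calc _ ≤ |c| * 1 := mul_le_mul_of_nonneg_left this (abs_nonneg _)
      _ = _ := mul_one _
  let e : ℕ × ℕ → Lp ℝ 2 (volume.restrict (Rec Y B)) := fun p => (hm p).toLp _
  have hon : Orthonormal ℝ e := by
    rw [orthonormal_iff_ite]
    intro p q
    rw [inner_toLp (hm p) (hm q)]
    have e1 : ∀ z, c * S Y B p z * (c * S Y B q z) = c ^ 2 * (S Y B p z * S Y B q z) := fun z => by ring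
    simp only [e1]
    rw [integral_const_mul, orth2 hY hB, hc2]
    split_ifs
    · field_simp
    · rw [mul_zero]
  have hbot : (Submodule.span ℝ (range e))ᗮ = ⊥ := by
    rw [Submodule.eq_bot_iff]
    intro f hf
    have h2 : ∀ p, ∫ q in Rec Y B, S Y B p q * f q = 0 := by
      intro p
      have h1 : inner ℝ (e p) f = 0 := hf _ (Submodule.subset_span ⟨p, rfl⟩)
      have h3 : inner ℝ (e p) f = ∫ q in Rec Y B, (c * S Y B p q) * f q := by
        rw [L2.inner_def]
        apply integral_congr_ae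
        filter_upwards [(hm p).coeFn_toLp] with a h1
        rw [h1]
        simp [mul_comm]
      rw [h3] at h1
      have e1 : ∀ q, (c * S Y B p q) * f q = c * (S Y B p q * f q) := fun q => by ring
      simp only [e1] at h1
      rw [integral_const_mul] at h1
      exact (mul_eq_zero.mp h1).resolve_left hc0
    have hfi : Integrable (f : ℝ × ℝ → ℝ) (volume.restrict (Rec Y B)) :=
      (Lp.memLp f).integrable (by norm_num)
    have h3 := complete hY hB (f := f) hfi h2
    exact (Lp.eq_zero_iff_ae_eq_zero).mpr h3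
  have h := (HilbertBasis.mkOfOrthogonalEqBot hon hbot).hasSum_inner_mul_inner (hv.toLp v) (hv.toLp v)
  rw [HilbertBasis.coe_mkOfOrthogonalEqBot] at h
  have hvv : inner ℝ (hv.toLp v) (hv.toLp v) = ∫ q in Rec Y B, v q ^ 2 := by
    rw [inner_toLp hv hv]
    simp only [sq]
  rw [hvv] at h
  refine h.congr_fun ?_
  intro p
  have h1 : inner ℝ (hv.toLp v) (e p) = c * ∫ q in Rec Y B, v q * S Y B p q := by
    rw [inner_toLp hv (hm p), ← integral_const_mul]
    refine integral_congr_ae (ae_of_all _ fun q => ?_)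
    show v q * (c * S Y B p q) = c * (v q * S Y B p q)
    ring
  rw [real_inner_comm (hv.toLp v) (e p), h1]
  unfold bc
  have h4 : ∫ q in Rec Y B, v q * S Y B p q =
      ∫ q in Rec Y B, v q * (Real.sin (kap Y p.1 * q.1) * Real.sin (kap B p.2 * q.2)) := rfl
  rw [← h4]
  have e5 : ∀ J : ℝ, c * J * (c * J) = c ^ 2 * J ^ 2 := fun J => by ring
  rw [e5, hc2]
  field_simp

end Pool.Agent.H74.OD.T.PAR
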