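import Pool.Agent.H74.OD.Stm

/-!
# OD-TWO: superposition of modes (helper92)
-/

set_option autoImplicit false

namespace Pool.Agent.H74.OD.T.TWO

open MeasureTheory Filter Topology Set Pool.Agent.H74.OD

/-- the weight of the mode `n` -/
noncomputable def wt (B : ℝ) (a n : ℕ) (t : ℝ) : ℝ := kap B n ^ a * Real.exp (-(kap B n ^ 2 * t))

theorem kap_pos {B : ℝ} (hB : 0 < B) (n : ℕ) : 0 < kap B n := by
  unfold kap
  have := Real.pi_pos
  positivity

theorem wt_nonneg {B : ℝ} (hB : 0 < B) (a n : ℕ) (t : ℝ) : 0 ≤ wt B a n t := by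
  unfold wt
  have := kap_pos hB n
  positivity

theorem wt_anti {B : ℝ} (hB : 0 < B) (a n : ℕ) {s t : ℝ} (h : s ≤ t) : wt B a n t ≤ wt B a n s := by
  unfold wt
  have := kap_pos hB n
  refine mul_le_mul_of_nonneg_left (Real.exp_le_exp.2 ?_) (by positivity)
  have := mul_le_mul_of_nonneg_left h (sq_nonneg (kap B n))
  linarith

theorem wt_summable {B : ℝ} (hB : 0 < B) (a : ℕ) {t : ℝ} (ht : 0 < t) : Summable fun n => wt B a n t := by
  have hc : 0 < Real.pi / B := div_pos Real.pi_pos hB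
  have h1 := Real.summable_pow_mul_exp_neg_nat_mul a (r := (Real.pi / B) ^ 2 * t) (by positivity)
  have h2 := ((summable_nat_add_iff 1).2 h1).mul_left ((Real.pi / B) ^ a)
  refine Summable.of_nonneg_of_le (fun n => wt_nonneg hB a n t) (fun n => ?_) h2
  unfold wt
  have e : kap B n = (Real.pi / B) * ((n + 1 : ℕ) : ℝ) := by
    unfold kap
    push_cast
    ring
  rw [e, mul_pow, mul_assoc]
  refine mul_le_mul_of_nonneg_left (mul_le_mul_of_nonneg_left (Real.exp_le_exp.2 ?_) (by positivity))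
    (by positivity)
  have h3 : (1 : ℝ) ≤ ((n + 1 : ℕ) : ℝ) := by
    push_cast
    have : (0 : ℝ) ≤ n := Nat.cast_nonneg n
    linarith
  have h4 : ((n + 1 : ℕ) : ℝ) ≤ ((n + 1 : ℕ) : ℝ) ^ 2 := by nlinarith
  have h5 : (Real.pi / B) ^ 2 * t * ((n + 1 : ℕ) : ℝ) ≤ (Real.pi / B) ^ 2 * t * ((n + 1 : ℕ) : ℝ) ^ 2 :=
    mul_le_mul_of_nonneg_left h4 (by positivity)
  rw [mul_pow]
  linarith

/-- the series -/
noncomputable def GG (B : ℝ) (a : ℕ) (u : ℕ → ℝ → ℝ → ℝ) (g : ℕ → ℝ → ℝ) (t x y : ℝ) : ℝ :=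
  ∑' n, u n t x * wt B a n t * g n y

/-- locally uniform bounds -/
def Bd (Y : ℝ) (u : ℕ → ℝ → ℝ → ℝ) : Prop := ∀ t₁ Y₁ : ℝ, 0 < t₁ → 0 < Y₁ → Y₁ < Y →
  ∃ C : ℝ, ∀ n t x, t₁ ≤ t → |x| ≤ Y₁ → |u n t x| ≤ C

/-- bounded functions -/
def Le1 (g : ℕ → ℝ → ℝ) : Prop := ∀ n y, |g n y| ≤ 1

theorem term_le {B : ℝ} (hB : 0 < B) {C t₁ t U G : ℝ} (a n : ℕ) (ht : t₁ ≤ t) (hU : |U| ≤ C) (hG : |G| ≤ 1) :
    ‖U * wt B a n t * G‖ ≤ C * wt B a n t₁ := by
  have hC : 0 ≤ C := (abs_nonneg _).trans hU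
  rw [Real.norm_eq_abs, abs_mul, abs_mul, abs_of_nonneg (wt_nonneg hB a n t)]
  calc |U| * wt B a n t * |G| ≤ |U| * wt B a n t * 1 :=
        mul_le_mul_of_nonneg_left hG (mul_nonneg (abs_nonneg _) (wt_nonneg hB a n t))
    _ = |U| * wt B a n t := mul_one _
    _ ≤ C * wt B a n t₁ := mul_le_mul hU (wt_anti hB a n ht) (wt_nonneg hB a n t) hC

theorem GG_summable {Y B : ℝ} (hB : 0 < B) (a : ℕ) {u : ℕ → ℝ → ℝ → ℝ} (hu : Bd Y u) {g : ℕ → ℝ → ℝ}
    (hg : Le1 g) {t x : ℝ} (ht : 0 < t) (hx : |x| < Y) (y : ℝ) :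
    Summable fun n => u n t x * wt B a n t * g n y := by
  have hY : 0 < Y := (abs_nonneg x).trans_lt hx
  obtain ⟨C, hC⟩ := hu t ((|x| + Y) / 2) ht (by linarith [abs_nonneg x]) (by linarith)
  refine Summable.of_norm_bounded ((wt_summable hB a ht).mul_left C) fun n => ?_
  exact term_le hB a n le_rfl (hC n t x le_rfl (by linarith)) (hg n y)

theorem GG_dx {Y B : ℝ} (hB : 0 < B) (a : ℕ) {u u' : ℕ → ℝ → ℝ → ℝ} (hu : Bd Y u) (hu' : Bd Y u')
    (hd : ∀ n t x, 0 < t → |x| < Y → HasDerivAt (fun s => u n t s) (u' n t x) x) {g : ℕ → ℝ → ℝ}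
    (hg : Le1 g) {t x : ℝ} (ht : 0 < t) (hx : |x| < Y) (y : ℝ) :
    HasDerivAt (fun s => GG B a u g t s y) (GG B a u' g t x y) x := by
  have hY : 0 < Y := (abs_nonneg x).trans_lt hx
  obtain ⟨C, hC⟩ := hu' t ((|x| + Y) / 2) ht (by linarith [abs_nonneg x]) (by linarith)
  have hmem : x ∈ Ioo (-((|x| + Y) / 2)) ((|x| + Y) / 2) := by
    rw [mem_Ioo, ← abs_lt]
    linarith
  refine hasDerivAt_tsum_of_isPreconnected (u := fun n => C * wt B a n t)
    ((wt_summable hB a ht).mul_left C) isOpen_Ioo isPreconnected_Ioo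
    (g := fun n s => u n t s * wt B a n t * g n y) (g' := fun n s => u' n t s * wt B a n t * g n y)
    (fun n s hs => ?_) (fun n s hs => ?_) hmem (GG_summable hB a hu hg ht hx y) hmem
  · rw [mem_Ioo, ← abs_lt] at hs
    exact ((hd n t s ht (by linarith)).mul_const _).mul_const _
  · rw [mem_Ioo, ← abs_lt] at hs
    exact term_le hB a n le_rfl (hC n t s le_rfl hs.le) (hg n y)

theorem wt_succ (B : ℝ) (a n : ℕ) (t : ℝ) : wt B (a + 1) n t = kap B n * wt B a n t := by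
  unfold wt
  rw [pow_succ]
  ring

theorem GG_dy {Y B : ℝ} (hB : 0 < B) (a : ℕ) {u : ℕ → ℝ → ℝ → ℝ} (hu : Bd Y u) {g g' : ℕ → ℝ → ℝ}
    (hg : Le1 g) (hg' : Le1 g') (hd : ∀ n y, HasDerivAt (g n) (kap B n * g' n y) y)
    {t x : ℝ} (ht : 0 < t) (hx : |x| < Y) (y : ℝ) :
    HasDerivAt (fun s => GG B a u g t x s) (GG B (a + 1) u g' t x y) y := by
  have hY : 0 < Y := (abs_nonneg x).trans_lt hx
  obtain ⟨C, hC⟩ := hu t ((|x| + Y) / 2) ht (by linarith [abs_nonneg x]) (by linarith)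
  refine hasDerivAt_tsum_of_isPreconnected (u := fun n => C * wt B (a + 1) n t)
    ((wt_summable hB (a + 1) ht).mul_left C) isOpen_univ isPreconnected_univ
    (g := fun n s => u n t x * wt B a n t * g n s) (g' := fun n s => u n t x * wt B (a + 1) n t * g' n s)
    (fun n s _ => ?_) (fun n s _ => ?_) (mem_univ y) (GG_summable hB a hu hg ht hx y) (mem_univ y)
  · refine ((hd n s).const_mul (u n t x * wt B a n t)).congr_deriv ?_
    rw [wt_succ]
    ring
  · exact term_le hB (a + 1) n le_rfl (hC n t x le_rfl (by linarith)) (hg' n s)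

theorem wt_dt (B : ℝ) (n : ℕ) (t : ℝ) : HasDerivAt (fun s => wt B 0 n s) (-(wt B 2 n t)) t := by
  unfold wt
  have h1 : HasDerivAt (fun s : ℝ => -(kap B n ^ 2 * s)) (-(kap B n ^ 2)) t := by
    simpa using ((hasDerivAt_id t).const_mul (kap B n ^ 2)).fun_neg
  refine (h1.exp.const_mul (kap B n ^ 0)).congr_deriv ?_
  ring

theorem GG_dt {Y B : ℝ} (hB : 0 < B) {u u' : ℕ → ℝ → ℝ → ℝ} (hu : Bd Y u) (hu' : Bd Y u')
    (hd : ∀ n t x, 0 < t → |x| < Y → HasDerivAt (fun s => u n s x) (u' n t x) t) {g : ℕ → ℝ → ℝ}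
    (hg : Le1 g) {t x : ℝ} (ht : 0 < t) (hx : |x| < Y) (y : ℝ) :
    HasDerivAt (fun s => GG B 0 u g s x y)
      (GG B 0 u' g t x y + GG B 2 u (fun n y => -g n y) t x y) t := by
  have hY : 0 < Y := (abs_nonneg x).trans_lt hx
  obtain ⟨C, hC⟩ := hu (t / 2) ((|x| + Y) / 2) (by linarith) (by linarith [abs_nonneg x]) (by linarith)
  obtain ⟨C', hC'⟩ := hu' (t / 2) ((|x| + Y) / 2) (by linarith) (by linarith [abs_nonneg x]) (by linarith)
  have hg2 : Le1 (fun n y => -g n y) := fun n y => by rw [abs_neg]; exact hg n y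
  have hmem : t ∈ Ioi (t / 2) := by rw [mem_Ioi]; linarith
  have h1 := hasDerivAt_tsum_of_isPreconnected
    (u := fun n => C' * wt B 0 n (t / 2) + C * wt B 2 n (t / 2))
    (((wt_summable hB 0 (by linarith)).mul_left C').add ((wt_summable hB 2 (by linarith)).mul_left C))
    isOpen_Ioi isPreconnected_Ioi
    (g := fun n s => u n s x * wt B 0 n s * g n y)
    (g' := fun n s => u' n s x * wt B 0 n s * g n y + u n s x * wt B 2 n s * -g n y)
    (fun n s hs => ?_) (fun n s hs => ?_) hmem (GG_summable hB 0 hu hg ht hx y) hmem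
  · refine h1.congr_deriv ?_
    exact Summable.tsum_add (GG_summable hB 0 hu' hg ht hx y) (GG_summable hB 2 hu hg2 ht hx y)
  · rw [mem_Ioi] at hs
    refine (((hd n s x (by linarith) hx).mul (wt_dt B n s)).mul_const (g n y)).congr_deriv ?_
    ring
  · rw [mem_Ioi] at hs
    refine (norm_add_le _ _).trans (add_le_add ?_ ?_)
    · exact term_le hB 0 n hs.le (hC' n s x hs.le (by linarith)) (hg n y)
    · exact term_le hB 2 n hs.le (hC n s x hs.le (by linarith)) (hg2 n y)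

theorem wt_cont (B : ℝ) (a n : ℕ) : Continuous (wt B a n) := by
  unfold wt
  fun_prop

theorem GG_cont {Y B : ℝ} (hB : 0 < B) (a : ℕ) {u : ℕ → ℝ → ℝ → ℝ} (hu : Bd Y u)
    (hc : ∀ n, ContinuousOn (fun q : ℝ × ℝ => u n q.1 q.2) {q | 0 < q.1 ∧ |q.2| < Y}) {g : ℕ → ℝ → ℝ}
    (hg : Le1 g) (hgc : ∀ n, Continuous (g n)) :
    ContinuousOn (fun q : ℝ × ℝ × ℝ => GG B a u g q.1 q.2.1 q.2.2) {q | 0 < q.1 ∧ |q.2.1| < Y} := by
  rintro ⟨t, x, y⟩ ⟨ht, hx⟩
  have ht' : 0 < t := ht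
  have hx' : |x| < Y := hx
  have hY : 0 < Y := (abs_nonneg x).trans_lt hx'
  refine ContinuousAt.continuousWithinAt ?_
  obtain ⟨C, hC⟩ := hu (t / 2) ((|x| + Y) / 2) (by linarith) (by linarith [abs_nonneg x]) (by linarith)
  have hopen : IsOpen {q : ℝ × ℝ × ℝ | t / 2 < q.1 ∧ |q.2.1| < (|x| + Y) / 2} :=
    (isOpen_lt continuous_const continuous_fst).inter
      (isOpen_lt (continuous_abs.comp (continuous_fst.comp continuous_snd)) continuous_const)
  have h1 : ContinuousOn (fun q : ℝ × ℝ × ℝ => GG B a u g q.1 q.2.1 q.2.2)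
      {q : ℝ × ℝ × ℝ | t / 2 < q.1 ∧ |q.2.1| < (|x| + Y) / 2} := by
    refine continuousOn_tsum (u := fun n => C * wt B a n (t / 2)) (fun n => ?_)
      ((wt_summable hB a (by linarith)).mul_left C) fun n q hq => ?_
    · refine ((ContinuousOn.comp (hc n) (f := fun q : ℝ × ℝ × ℝ => (q.1, q.2.1)) (by fun_prop) ?_).mul
        ((wt_cont B a n).comp continuous_fst).continuousOn).mul
        ((hgc n).comp (continuous_snd.comp continuous_snd)).continuousOn
      rintro q ⟨h2, h3⟩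
      exact ⟨by linarith, by linarith⟩
    · obtain ⟨h2, h3⟩ := hq
      exact term_le hB a n h2.le (hC n q.1 q.2.1 h2.le h3.le) (hg n q.2.2)
  refine h1.continuousAt (hopen.mem_nhds ⟨?_, ?_⟩)
  · show t / 2 < t
    linarith
  · show |x| < (|x| + Y) / 2
    linarith

/-- joining the two sums -/
theorem join {Y B M t : ℝ} (hY : 0 < Y) (hB : 0 < B) (ht : 0 < t) (hM : 0 < M) {b : ℕ → ℕ → ℝ}
    (hb : ∀ k n, |b k n| ≤ M) {s V : ℕ → ℝ} (α β : ℕ) (hs : ∀ k, |s k| ≤ kap Y k ^ α)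
    (hV : ∀ n, |V n| ≤ kap B n ^ β) :
    ∑' n, (∑' k, b k n * Real.exp (-(kap Y k ^ 2 * t)) * s k) * (Real.exp (-(kap B n ^ 2 * t)) * V n) =
      ∑' p : ℕ × ℕ, b p.1 p.2 * Real.exp (-((kap Y p.1 ^ 2 + kap B p.2 ^ 2) * t)) * (s p.1 * V p.2) := by
  have hsum : Summable fun q : ℕ × ℕ =>
      b q.2 q.1 * Real.exp (-((kap Y q.2 ^ 2 + kap B q.1 ^ 2) * t)) * (s q.2 * V q.1) := by
    have h1 : Summable fun q : ℕ × ℕ => wt B β q.1 t * wt Y α q.2 t :=
      (wt_summable hB β ht).mul_of_nonneg (wt_summable hY α ht) (fun n => wt_nonneg hB β n t)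
        (fun n => wt_nonneg hY α n t)
    refine Summable.of_norm_bounded (h1.mul_left M) fun q => ?_
    rw [Real.norm_eq_abs, abs_mul, abs_mul, abs_mul, Real.abs_exp]
    have e : Real.exp (-((kap Y q.2 ^ 2 + kap B q.1 ^ 2) * t)) =
        Real.exp (-(kap Y q.2 ^ 2 * t)) * Real.exp (-(kap B q.1 ^ 2 * t)) := by
      rw [← Real.exp_add]
      congr 1
      ring
    rw [e]
    unfold wt
    have h2 : |s q.2| * |V q.1| ≤ kap Y q.2 ^ α * kap B q.1 ^ β :=
      mul_le_mul (hs q.2) (hV q.1) (abs_nonneg _) ((abs_nonneg _).trans (hs q.2))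
    have h3 : 0 ≤ Real.exp (-(kap Y q.2 ^ 2 * t)) * Real.exp (-(kap B q.1 ^ 2 * t)) := by positivity
    calc |b q.2 q.1| * (Real.exp (-(kap Y q.2 ^ 2 * t)) * Real.exp (-(kap B q.1 ^ 2 * t))) *
          (|s q.2| * |V q.1|)
        ≤ M * (Real.exp (-(kap Y q.2 ^ 2 * t)) * Real.exp (-(kap B q.1 ^ 2 * t))) *
          (kap Y q.2 ^ α * kap B q.1 ^ β) :=
          mul_le_mul (mul_le_mul_of_nonneg_right (hb _ _) h3) h2 (by positivity) (by positivity)
      _ = _ := by ring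
  rw [← (Equiv.prodComm ℕ ℕ).tsum_eq fun p : ℕ × ℕ =>
    b p.1 p.2 * Real.exp (-((kap Y p.1 ^ 2 + kap B p.2 ^ 2) * t)) * (s p.1 * V p.2)]
  simp only [Equiv.prodComm_apply, Prod.fst_swap, Prod.snd_swap]
  rw [hsum.tsum_prod]
  refine tsum_congr fun n => ?_
  rw [← tsum_mul_right]
  refine tsum_congr fun k => ?_
  have e : Real.exp (-((kap Y k ^ 2 + kap B n ^ 2) * t)) =
      Real.exp (-(kap Y k ^ 2 * t)) * Real.exp (-(kap B n ^ 2 * t)) := by
    rw [← Real.exp_add]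
    congr 1
    ring
  rw [e]
  ring

/-- the sines -/
noncomputable def sn (B : ℝ) (n : ℕ) (y : ℝ) : ℝ := Real.sin (kap B n * y)
/-- the cosines -/
noncomputable def cs (B : ℝ) (n : ℕ) (y : ℝ) : ℝ := Real.cos (kap B n * y)

theorem sn_le (B : ℝ) : Le1 (sn B) := fun n y => Real.abs_sin_le_one _
theorem cs_le (B : ℝ) : Le1 (cs B) := fun n y => Real.abs_cos_le_one _
theorem nsn_le (B : ℝ) : Le1 (fun n y => -sn B n y) := fun n y => by rw [abs_neg]; exact sn_le B n y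

theorem sn_d (B : ℝ) (n : ℕ) (y : ℝ) : HasDerivAt (sn B n) (kap B n * cs B n y) y := by
  have h1 : HasDerivAt (fun s : ℝ => kap B n * s) (kap B n) y := by
    simpa using (hasDerivAt_id y).const_mul (kap B n)
  refine h1.sin.congr_deriv ?_
  unfold cs
  ring

theorem cs_d (B : ℝ) (n : ℕ) (y : ℝ) : HasDerivAt (cs B n) (kap B n * -sn B n y) y := by
  have h1 : HasDerivAt (fun s : ℝ => kap B n * s) (kap B n) y := by
    simpa using (hasDerivAt_id y).const_mul (kap B n)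
  refine h1.cos.congr_deriv ?_
  unfold sn
  ring

theorem sn_c (B : ℝ) (n : ℕ) : Continuous (sn B n) := by unfold sn; fun_prop
theorem cs_c (B : ℝ) (n : ℕ) : Continuous (cs B n) := by unfold cs; fun_prop

theorem main (h : S_ONED) : S_TWO := by
  intro Y B T M hY hB hT hM b hb
  obtain ⟨C, hC⟩ := h Y T M hY hT hM
  choose z zt zx zxx hOne hbd using fun n => hC (fun k => b k n) (fun k => hb k n)
  have bz : Bd Y z := fun t₁ Y₁ h1 h2 h3 => ⟨C t₁ Y₁, fun n t x h4 h5 => (hbd n t₁ Y₁ h1 h2 h3 t x h4 h5).1⟩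
  have bx : Bd Y zx := fun t₁ Y₁ h1 h2 h3 => ⟨C t₁ Y₁, fun n t x h4 h5 => (hbd n t₁ Y₁ h1 h2 h3 t x h4 h5).2.1⟩
  have bxx : Bd Y zxx := fun t₁ Y₁ h1 h2 h3 =>
    ⟨C t₁ Y₁, fun n t x h4 h5 => (hbd n t₁ Y₁ h1 h2 h3 t x h4 h5).2.2⟩
  refine ⟨GG B 0 z (sn B), fun t x y => GG B 0 zxx (sn B) t x y + GG B 2 z (fun n y => -sn B n y) t x y,
    GG B 0 zx (sn B), GG B 1 z (cs B), GG B 0 zxx (sn B), GG B 2 z (fun n y => -sn B n y),
    GG B 1 zx (cs B), ?_⟩
  refine
    { dt := fun t x y ht hx => GG_dt hB bz bxx (fun n t x ht hx => ?_) (sn_le B) ht hx y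
      dx := fun t x y ht hx => GG_dx hB 0 bz bx (fun n t x ht hx => (hOne n).dx t x ht hx) (sn_le B) ht hx y
      dy := fun t x y ht hx => GG_dy hB 0 bz (sn_le B) (cs_le B) (sn_d B) ht hx y
      dxx := fun t x y ht hx => GG_dx hB 0 bx bxx (fun n t x ht hx => (hOne n).dxx t x ht hx) (sn_le B) ht hx y
      dyy := fun t x y ht hx => GG_dy hB 1 bz (cs_le B) (nsn_le B) (cs_d B) ht hx y
      dxy := fun t x y ht hx => GG_dy hB 0 bx (sn_le B) (cs_le B) (sn_d B) ht hx y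
      dyx := fun t x y ht hx => GG_dx hB 1 bz bx (fun n t x ht hx => (hOne n).dx t x ht hx) (cs_le B) ht hx y
      eq := fun t x y _ _ => rfl
      ct := (GG_cont hB 0 bxx (fun n => (hOne n).cxx) (sn_le B) (sn_c B)).add
        (GG_cont hB 2 bz (fun n => (hOne n).cz) (nsn_le B) (fun n => (sn_c B n).neg))
      cx := GG_cont hB 0 bx (fun n => (hOne n).cx) (sn_le B) (sn_c B)
      cy := GG_cont hB 1 bz (fun n => (hOne n).cz) (cs_le B) (cs_c B)
      cxx := GG_cont hB 0 bxx (fun n => (hOne n).cxx) (sn_le B) (sn_c B)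
      cyy := GG_cont hB 2 bz (fun n => (hOne n).cz) (nsn_le B) (fun n => (sn_c B n).neg)
      cxy := GG_cont hB 1 bx (fun n => (hOne n).cx) (cs_le B) (cs_c B)
      wall := ?_
      early := ?_
      earlyx := ?_
      earlyy := ?_
      late := ?_ }
  · have h1 := (hOne n).dt t x ht hx
    rwa [(hOne n).eq t x ht hx] at h1
  · rintro t x y ht hx (rfl | rfl | rfl)
    · unfold GG
      simp only [(hOne _).zero t ht, zero_mul, tsum_zero]
    · unfold GG sn
      simp only [mul_zero, Real.sin_zero, tsum_zero]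
    · unfold GG sn
      have e : ∀ n : ℕ, Real.sin (kap y n * y) = 0 := fun n => by
        have : kap y n * y = ((n + 1 : ℕ) : ℝ) * Real.pi := by
          unfold kap
          push_cast
          field_simp
        rw [this, Real.sin_nat_mul_pi]
      simp only [e, mul_zero, tsum_zero]
  · intro t x y ht htT hx
    rw [← join hY hB ht hM hb (s := fun k => Real.sin (kap Y k * x)) (V := fun n => Real.sin (kap B n * y)) 0 0
      (fun k => by rw [pow_zero]; exact Real.abs_sin_le_one _)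
      (fun n => by rw [pow_zero]; exact Real.abs_sin_le_one _)]
    refine tsum_congr fun n => ?_
    rw [← (hOne n).early t x ht htT hx]
    unfold wt sn
    ring
  · intro t x y ht htT hx
    rw [← join hY hB ht hM hb (s := fun k => kap Y k * Real.cos (kap Y k * x))
      (V := fun n => Real.sin (kap B n * y)) 1 0
      (fun k => by
        rw [pow_one, abs_mul, abs_of_pos (kap_pos hY k)]
        exact mul_le_of_le_one_right (kap_pos hY k).le (Real.abs_cos_le_one _))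
      (fun n => by rw [pow_zero]; exact Real.abs_sin_le_one _)]
    refine tsum_congr fun n => ?_
    rw [← (hOne n).earlyx t x ht htT hx]
    unfold wt sn
    ring
  · intro t x y ht htT hx
    rw [← join hY hB ht hM hb (s := fun k => Real.sin (kap Y k * x))
      (V := fun n => kap B n * Real.cos (kap B n * y)) 0 1
      (fun k => by rw [pow_zero]; exact Real.abs_sin_le_one _)
      (fun n => by
        rw [pow_one, abs_mul, abs_of_pos (kap_pos hB n)]
        exact mul_le_of_le_one_right (kap_pos hB n).le (Real.abs_cos_le_one _))]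
    refine tsum_congr fun n => ?_
    rw [← (hOne n).early t x ht htT hx]
    unfold wt cs
    ring
  · intro t x y ht hx
    unfold GG
    simp only [(hOne _).late t x ht hx, zero_mul, tsum_zero]

end Pool.Agent.H74.OD.T.TWO
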